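import Pool.Agent.Lib.MP_f80667_ag.Lv.Ka

/-!
Finiteness of the graded pieces without characters: definitions.

`n` stands for the field `Ur ⊥ n`, `k` is the degree of the residue field of `K` (`Rf ⊥ k`), `W` is a group of cycles.

* `Tk f L ψ π s n c w u`: the value `tr ([P'] - [P])`, `P` over `(c, w)`, `P'` over `c + π ^ s u`.
* `Gk f L ψ π s x n c w u`: the value at `c + π x` minus the value at `c`.
* `Vfn f L ψ π k W Φ`: `Φ` is modulo `W` additive in `u`, depends only on `u` and `c` modulo `π`, is compatible with the traces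
  and satisfies the relations of the curves.
* `Ko L ψ k W Φ c w u`: all the values at `(c, w)` of the multiples of `u` are in `W`.
-/

open ZC BE PE CV IntermediateField

namespace GX

variable {F : Type} [Field F] {N d : ℕ} {ι : Type} (f : ι → MvPolynomial (Fin N) F) {K Ω : Type}
  [Field K] [CharZero K] [Field Ω] [Algebra K Ω] [Algebra F K] [Algebra F Ω]
  [IsScalarTower F K Ω] [IsAlgClosure K Ω] (L : Ld K Ω) (ψ : Prj K N d) (π : Ω)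

/-- The value over `Ur ⊥ n` at `(c, w)` of the displacement `π ^ s u`. -/
noncomputable def Tk (s n : ℕ) (c : Fin (d + 1) → Ω) (w : Ω) (u : Fin (d + 1) → Ω) :
    (Xf f).pt Ω →₀ ℤ := cyv f L ψ (L.Ur ⊥ n) c w (π ^ s • u)

/-- The value at `c + π x` minus the value at `c`. -/
noncomputable def Gk (s : ℕ) (x : Fin (d + 1) → Ω) (n : ℕ) (c : Fin (d + 1) → Ω) (w : Ω)
    (u : Fin (d + 1) → Ω) : (Xf f).pt Ω →₀ ℤ :=
  Tk f L ψ π s n (c + π • x) (sht L ψ w (c + π • x)) u - Tk f L ψ π s n c w u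

/-- The rules for a function of the values modulo `W`. -/
structure Vfn (k : ℕ) (W : AddSubgroup ((Xf f).pt Ω →₀ ℤ))
    (Φ : ℕ → (Fin (d + 1) → Ω) → Ω → (Fin (d + 1) → Ω) → (Xf f).pt Ω →₀ ℤ) : Prop where
  add : ∀ (n : ℕ) (c : Fin (d + 1) → Ω) (w : Ω) (u u' : Fin (d + 1) → Ω), n ≠ 0 → k ∣ n →
    Gp L ψ (L.Ur ⊥ n) c w → Iv L (L.Ur ⊥ n) u → Iv L (L.Ur ⊥ n) u' →
      Φ n c w (u + u') - Φ n c w u - Φ n c w u' ∈ W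
  pi : ∀ (n : ℕ) (c : Fin (d + 1) → Ω) (w : Ω) (u : Fin (d + 1) → Ω), n ≠ 0 → k ∣ n →
    Gp L ψ (L.Ur ⊥ n) c w → Iv L (L.Ur ⊥ n) u → Φ n c w (π • u) ∈ W
  norm : ∀ (n n' : ℕ) (c : Fin (d + 1) → Ω) (w : Ω) (u : Fin (d + 1) → Ω) (b : Ω), n ≠ 0 →
    k ∣ n → n' ≠ 0 → n ∣ n' → Gp L ψ (L.Ur ⊥ n) c w → Iv L (L.Ur ⊥ n) u → b ∈ L.Ur ⊥ n' →
      L.nm b ≤ 1 → Φ n' c w (b • u) - Φ n c w (Nm (L.Ur ⊥ n) (L.Ur ⊥ n') b • u) ∈ W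
  near : ∀ (n : ℕ) (c : Fin (d + 1) → Ω) (w : Ω) (u h : Fin (d + 1) → Ω), n ≠ 0 → k ∣ n →
    Gp L ψ (L.Ur ⊥ n) c w → Iv L (L.Ur ⊥ n) u → Iv L (L.Ur ⊥ n) h →
      Φ n (c + π • h) (sht L ψ w (c + π • h)) u - Φ n c w u ∈ W
  crv : ∀ (n : ℕ) (a : Fin (d + 1) → Polynomial Ω) (ρ : ℕ) (S : Finset Ω) (j : ℕ) (τ : Ω),
    n ≠ 0 → k ∣ n → Arc L (L.Ur ⊥ n) a → (∀ i, (a i).natDegree ≤ ρ) →
    (∀ z ∈ S, z ∈ L.Ur ⊥ n ∧ L.nm z ≤ 1 ∧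
      L.nm (MvPolynomial.aeval (fun r => (a r).eval z) ψ.D) = 1) →
    (∀ z ∈ S, ∀ z' ∈ S, z ≠ z' → L.nm (z - z') = 1) → j * ρ < S.card → τ ∈ L.Ur ⊥ n →
    L.nm τ ≤ 1 → (∀ z ∈ S, ∀ w ∈ rts ψ (fun r => (a r).eval z), w ∈ L.Ur ⊥ n) →
      ∑ z ∈ S, ∑ w ∈ rts ψ (fun r => (a r).eval z), Φ n (fun r => (a r).eval z) w
        (fun r => τ * w ^ j / (Polynomial.derivative
          (∏ c ∈ S, (Polynomial.X - Polynomial.C c))).eval z *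
            (Polynomial.derivative (a r)).eval z) ∈ W

variable {f} in
/-- All the values of the multiples of `u` are in `W`. -/
def Ko (k : ℕ) (W : AddSubgroup ((Xf f).pt Ω →₀ ℤ))
    (Φ : ℕ → (Fin (d + 1) → Ω) → Ω → (Fin (d + 1) → Ω) → (Xf f).pt Ω →₀ ℤ)
    (c : Fin (d + 1) → Ω) (w : Ω) (u : Fin (d + 1) → Ω) : Prop :=
  ∀ n : ℕ, n ≠ 0 → k ∣ n → Gp L ψ (L.Ur ⊥ n) c w → Iv L (L.Ur ⊥ n) u →
    ∀ τ ∈ L.Ur ⊥ n, L.nm τ ≤ 1 → Φ n c w (τ • u) ∈ W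

variable {f L ψ π}

theorem Vfn.mono {k : ℕ} {W W' : AddSubgroup ((Xf f).pt Ω →₀ ℤ)}
    {Φ : ℕ → (Fin (d + 1) → Ω) → Ω → (Fin (d + 1) → Ω) → (Xf f).pt Ω →₀ ℤ}
    (h : Vfn f L ψ π k W Φ) (hW : W ≤ W') : Vfn f L ψ π k W' Φ where
  add n c w u u' h1 h2 h3 h4 h5 := hW (h.add n c w u u' h1 h2 h3 h4 h5)
  pi n c w u h1 h2 h3 h4 := hW (h.pi n c w u h1 h2 h3 h4)
  norm n n' c w u b h1 h2 h3 h4 h5 h6 h7 h8 := hW (h.norm n n' c w u b h1 h2 h3 h4 h5 h6 h7 h8)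
  near n c w u x h1 h2 h3 h4 h5 := hW (h.near n c w u x h1 h2 h3 h4 h5)
  crv n a ρ S j τ h1 h2 h3 h4 h5 h6 h7 h8 h9 h10 :=
    hW (h.crv n a ρ S j τ h1 h2 h3 h4 h5 h6 h7 h8 h9 h10)

end GX
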