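import Pool.Agent.Lib.MP_f80667_ag.Lv.Ko.A

/-! Rules for a function `Vfn`. -/

open ZC BE PE CV IntermediateField

namespace GX

variable {F : Type} [Field F] {N d : ℕ} {ι : Type} {f : ι → MvPolynomial (Fin N) F} {K Ω : Type}
  [Field K] [CharZero K] [Field Ω] [Algebra K Ω] [Algebra F K] [Algebra F Ω]
  [IsScalarTower F K Ω] [IsAlgClosure K Ω] {L : Ld K Ω} {ψ : Prj K N d} {π : Ω} {k : ℕ}
  {W : AddSubgroup ((Xf f).pt Ω →₀ ℤ)}
  {Φ : ℕ → (Fin (d + 1) → Ω) → Ω → (Fin (d + 1) → Ω) → (Xf f).pt Ω →₀ ℤ}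
  {n : ℕ} {c u u' : Fin (d + 1) → Ω} {w : Ω}

omit [CharZero K] [IsAlgClosure K Ω] in
private theorem kob_zero {M : IntermediateField K Ω} : Iv L M (0 : Fin (d + 1) → Ω) :=
  fun i => ⟨zero_mem _, by
    rw [Pi.zero_apply, (L.zero_iff 0).2 rfl]
    exact zero_le_one⟩

omit [CharZero K] [IsAlgClosure K Ω] in
private theorem kob_add {M : IntermediateField K Ω} {v v' : Fin (d + 1) → Ω} (h : Iv L M v)
    (h' : Iv L M v') : Iv L M (v + v') :=
  fun i => ⟨add_mem (h i).1 (h' i).1, (L.add _ _).trans (max_le (h i).2 (h' i).2)⟩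

omit [CharZero K] [IsAlgClosure K Ω] in
private theorem kob_sum {M : IntermediateField K Ω} {κ' : Type} (S : Finset κ')
    {v : κ' → Fin (d + 1) → Ω} (hv : ∀ i ∈ S, Iv L M (v i)) : Iv L M (∑ i ∈ S, v i) := by
  classical
  induction S using Finset.induction_on with
  | empty =>
    rw [Finset.sum_empty]
    exact kob_zero
  | insert a S ha ih =>
    rw [Finset.sum_insert ha]
    exact kob_add (hv a (Finset.mem_insert_self a S))
      (ih fun i hi => hv i (Finset.mem_insert_of_mem hi))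

theorem Vfn.zero (hΦ : Vfn f L ψ π k W Φ) (hn : n ≠ 0) (hkn : k ∣ n)
    (g : Gp L ψ (L.Ur ⊥ n) c w) : Φ n c w 0 ∈ W := by
  have h := hΦ.add n c w 0 0 hn hkn g kob_zero kob_zero
  rw [add_zero, sub_self, zero_sub] at h
  exact W.neg_mem_iff.mp h

/-- Congruent `u`. Proof: `add` for `u`, `π • u'`, `pi`. -/
theorem Vfn.congr (hΦ : Vfn f L ψ π k W Φ) (hn : n ≠ 0) (hkn : k ∣ n)
    (g : Gp L ψ (L.Ur ⊥ n) c w) (hu : Iv L (L.Ur ⊥ n) u) (hu' : Iv L (L.Ur ⊥ n) u')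
    (hπ : Uf L π) : Φ n c w (u + π • u') - Φ n c w u ∈ W := by
  have hp : Iv L (L.Ur ⊥ n) (π • u') := fun i => ⟨mul_mem (hπ.mem _) (hu' i).1, by
    rw [Pi.smul_apply, smul_eq_mul, L.mul]
    exact mul_le_one₀ hπ.lt.le (L.nonneg _) (hu' i).2⟩
  have h1 := hΦ.add n c w u (π • u') hn hkn g hu hp
  have h2 := hΦ.pi n c w u' hn hkn g hu'
  have h3 := W.add_mem h1 h2
  rwa [sub_add_cancel] at h3

theorem Vfn.sum (hΦ : Vfn f L ψ π k W Φ) (hn : n ≠ 0) (hkn : k ∣ n)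
    (g : Gp L ψ (L.Ur ⊥ n) c w) {κ' : Type} (S : Finset κ') {v : κ' → Fin (d + 1) → Ω}
    (hv : ∀ i ∈ S, Iv L (L.Ur ⊥ n) (v i)) :
    Φ n c w (∑ i ∈ S, v i) - ∑ i ∈ S, Φ n c w (v i) ∈ W := by
  classical
  induction S using Finset.induction_on with
  | empty =>
    rw [Finset.sum_empty, Finset.sum_empty, sub_zero]
    exact hΦ.zero hn hkn g
  | insert a S ha ih =>
    rw [Finset.sum_insert ha, Finset.sum_insert ha]
    have hS : ∀ i ∈ S, Iv L (L.Ur ⊥ n) (v i) := fun i hi => hv i (Finset.mem_insert_of_mem hi)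
    have h1 := hΦ.add n c w (v a) (∑ i ∈ S, v i) hn hkn g (hv a (Finset.mem_insert_self a S))
      (kob_sum S hS)
    have h2 := W.add_mem h1 (ih hS)
    rwa [sub_add_sub_cancel, sub_sub] at h2

end GX
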