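import Pool.Agent.Lib.MP_f80667_ag.Lv.Ka
import Pool.Agent.Lib.MP_f80667_ag.Gy.Tc
import Pool.Agent.Lib.MP_f80667_ag.Lv.Tr

/-! The trace of an unramified extension is onto on the integers. -/

open ZC BE PE CV IntermediateField

namespace GX

variable {K Ω : Type} [Field K] [CharZero K] [Field Ω] [Algebra K Ω] [IsAlgClosure K Ω]
  {L : Ld K Ω} {k : ℕ}

/-- **The trace is onto.** Proof: `n = k m`, `n' = n t`. `nm_hv` of `Gy/Tc.lean`: the residue of `Nm z` is the value of `∑ X ^ p ^ (n i)`, `i < t`, of degree `p ^ (n (t - 1))`, at the residue of `z`; `Te (n t)` has `p ^ (n t)` elements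
(their residues are the roots of `X ^ p ^ (n t) - X` in `L.κ`, algebraically closed): some `z ∈ Ur ⊥ n'` has `nm (Nm z) = 1`. Then `b' = (b / Nm z) z`: `Nm` is linear over `Ur ⊥ n`. -/
theorem nm_onto (hk : L.Rf ⊥ k) {n n' : ℕ} (hn : n ≠ 0) (hkn : k ∣ n) (hn' : n' ≠ 0)
    (h : n ∣ n') {b : Ω} (hb : b ∈ L.Ur ⊥ n) (hb1 : L.nm b ≤ 1) :
    ∃ b' ∈ L.Ur ⊥ n', L.nm b' ≤ 1 ∧ Nm (L.Ur ⊥ n) (L.Ur ⊥ n') b' = b := by
  obtain ⟨m, rfl⟩ := hkn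
  obtain ⟨t, rfl⟩ := h
  have hm : m ≠ 0 := right_ne_zero_of_mul hn
  have ht : t ≠ 0 := right_ne_zero_of_mul hn'
  have hR := Ld.rf_ur (K := K) hk hm
  have hfd : FiniteDimensional K (L.Ur ⊥ (k * m)) := Ld.ur_fin ⊥ _ hR.ne
  obtain ⟨φ, q, hφ⟩ := exists_frob L.toLf (L.Ur ⊥ (k * m))
  rw [Ld.rf_frob hR hφ] at hφ
  have hU : L.Ur (L.Ur ⊥ (k * m)) (k * m * t) = L.Ur ⊥ (k * m * t) :=
    Ld.ur_ur ⊥ (dvd_mul_right _ _)
  obtain ⟨v, hv, hv1, hsum⟩ := Ld.ur_tr hφ hR.ne ht hb hb1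
  rw [hU] at hv
  refine ⟨v, hv, hv1, ?_⟩
  have h1 := Ld.ur_nm hφ hR.ne ht (A := Ω) (P := v) (by
    rw [hU]
    exact fx_mem.2 hv)
  rw [hU] at h1
  rw [h1]
  exact hsum

end GX
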