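import Pool.Agent.Lib.MP_f80667_ag.Lv.Ko.B
import Pool.Agent.Lib.MP_f80667_ag.Lv.Ko.C1

/-! The rules for `Ko`: extension of the field. -/

open ZC BE PE CV IntermediateField

namespace GX

variable {F : Type} [Field F] {N d : ℕ} {ι : Type} {f : ι → MvPolynomial (Fin N) F} {K Ω : Type}
  [Field K] [CharZero K] [Field Ω] [Algebra K Ω] [Algebra F K] [Algebra F Ω]
  [IsScalarTower F K Ω] [IsAlgClosure K Ω] {L : Ld K Ω} {ψ : Prj K N d} {π : Ω} {k : ℕ}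
  {W : AddSubgroup ((Xf f).pt Ω →₀ ℤ)}
  {Φ : ℕ → (Fin (d + 1) → Ω) → Ω → (Fin (d + 1) → Ω) → (Xf f).pt Ω →₀ ℤ}
  {n : ℕ} {c u u' : Fin (d + 1) → Ω} {w : Ω}

/-- **(K1)** One field is enough. Proof: let `n'` be another one, `τ` over `Ur ⊥ n'`, `N' = n n'`. `Vfn.norm` for `n ∣ N'`: `Φ N' c w (τ' • u) ∈ W` for all `τ'` over `Ur ⊥ N'` (`Nm τ'` is an integer of `Ur ⊥ n`: `nm` of a sum of conjugates, `nm_rep`;
`Gp.mono` is not needed). `nm_onto` for `n' ∣ N'`: `τ = Nm τ'`, `Vfn.norm` for `n' ∣ N'`. -/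
theorem ko_of (hk : L.Rf ⊥ k) (hΦ : Vfn f L ψ π k W Φ) (hn : n ≠ 0) (hkn : k ∣ n)
    (g : Gp L ψ (L.Ur ⊥ n) c w) (hu : Iv L (L.Ur ⊥ n) u)
    (h : ∀ τ ∈ L.Ur ⊥ n, L.nm τ ≤ 1 → Φ n c w (τ • u) ∈ W) : Ko L ψ k W Φ c w u := by
  intro n' hn' hkn' g' hu' τ hτ hτ1
  obtain ⟨m, rfl⟩ := hkn
  have hm : m ≠ 0 := right_ne_zero_of_mul hn
  have hN : k * m * n' ≠ 0 := mul_ne_zero hn hn'
  have hfd : FiniteDimensional K (L.Ur ⊥ (k * m * n')) := Ld.ur_fin ⊥ _ hN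
  have hle : L.Ur ⊥ (k * m) ≤ L.Ur ⊥ (k * m * n') := Ld.ur_dvd ⊥ (dvd_mul_right _ _)
  obtain ⟨b, hb, hb1, hbτ⟩ := nm_onto hk hn' hkn' hN (dvd_mul_left _ _) hτ hτ1
  have h1 := hΦ.norm n' (k * m * n') c w u b hn' hkn' hN (dvd_mul_left _ _) g' hu' hb hb1
  rw [hbτ] at h1
  have h2 := hΦ.norm (k * m) (k * m * n') c w u b hn (dvd_mul_right _ _) hN
    (dvd_mul_right _ _) g hu hb hb1
  have hmem : Nm (L.Ur ⊥ (k * m)) (L.Ur ⊥ (k * m * n')) b ∈ L.Ur ⊥ (k * m) :=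
    fx_mem.1 (nm_fx hle (fx_mem.2 hb))
  obtain ⟨e, he⟩ := L.hv_of hb1
  have hint := L.hv_int (nm_hv (K := K) hk hm hn' hb he)
  have h3 := h _ hmem hint
  have h4 := sub_mem (add_mem h2 h3) h1
  have h5 : Φ (k * m * n') c w (b • u) -
      Φ (k * m) c w (Nm (L.Ur ⊥ (k * m)) (L.Ur ⊥ (k * m * n')) b • u) +
      Φ (k * m) c w (Nm (L.Ur ⊥ (k * m)) (L.Ur ⊥ (k * m * n')) b • u) -
      (Φ (k * m * n') c w (b • u) - Φ n' c w (τ • u)) = Φ n' c w (τ • u) := by abel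
  rw [h5] at h4
  exact h4

end GX
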