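import Pool.Agent.Lib.MP_f80667_ag.Lv.Ko.C2
import Pool.Agent.Lib.MP_f80667_ag.Lv.Ta

/-! The rules for `Ko`. -/

open ZC BE PE CV IntermediateField

namespace GX

variable {F : Type} [Field F] {N d : ℕ} {ι : Type} {f : ι → MvPolynomial (Fin N) F} {K Ω : Type}
  [Field K] [CharZero K] [Field Ω] [Algebra K Ω] [Algebra F K] [Algebra F Ω]
  [IsScalarTower F K Ω] [IsAlgClosure K Ω] {L : Ld K Ω} {ψ : Prj K N d} {π : Ω} {k : ℕ}
  {W : AddSubgroup ((Xf f).pt Ω →₀ ℤ)}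
  {Φ : ℕ → (Fin (d + 1) → Ω) → Ω → (Fin (d + 1) → Ω) → (Xf f).pt Ω →₀ ℤ}
  {n : ℕ} {c u u' : Fin (d + 1) → Ω} {w : Ω}

omit [CharZero K] [IsAlgClosure K Ω] in
private theorem c3_smul {M : IntermediateField K Ω} {v : Fin (d + 1) → Ω} (hv : Iv L M v) {a : Ω}
    (ha : a ∈ M) (ha1 : L.nm a ≤ 1) : Iv L M (a • v) := fun i => by
  rw [Pi.smul_apply, smul_eq_mul]
  refine ⟨mul_mem ha (hv i).1, ?_⟩
  rw [L.mul]
  exact mul_le_one₀ ha1 (L.nonneg _) (hv i).2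

omit [CharZero K] [IsAlgClosure K Ω] in
private theorem c3_add {M : IntermediateField K Ω} {v v' : Fin (d + 1) → Ω} (hv : Iv L M v)
    (hv' : Iv L M v') : Iv L M (v + v') := fun i =>
  ⟨add_mem (hv i).1 (hv' i).1, (L.add _ _).trans (max_le (hv i).2 (hv' i).2)⟩

omit [CharZero K] [IsAlgClosure K Ω] in
private theorem c3_one (M : IntermediateField K Ω) (r : Fin (d + 1)) :
    Iv L M (Pi.single r 1 : Fin (d + 1) → Ω) := fun i => by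
  by_cases h : i = r
  · subst h
    rw [Pi.single_eq_same]
    exact ⟨one_mem _, L.one.le⟩
  · rw [Pi.single_eq_of_ne h]
    exact ⟨zero_mem _, by rw [L.zero]; exact zero_le_one⟩

/-- Proof: `ko_of`, `Vfn.add`. -/
theorem Ko.add (hk : L.Rf ⊥ k) (hΦ : Vfn f L ψ π k W Φ) (hn : n ≠ 0) (hkn : k ∣ n)
    (g : Gp L ψ (L.Ur ⊥ n) c w) (hu : Iv L (L.Ur ⊥ n) u) (hu' : Iv L (L.Ur ⊥ n) u')
    (h : Ko L ψ k W Φ c w u) (h' : Ko L ψ k W Φ c w u') : Ko L ψ k W Φ c w (u + u') := by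
  refine ko_of hk hΦ hn hkn g (c3_add hu hu') fun τ hτ h1 => ?_
  have e := hΦ.add n c w (τ • u) (τ • u') hn hkn g (c3_smul hu hτ h1) (c3_smul hu' hτ h1)
  have e1 := h n hn hkn g hu τ hτ h1
  have e2 := h' n hn hkn g hu' τ hτ h1
  have e3 := add_mem (add_mem e e1) e2
  rw [smul_add]
  have e4 : Φ n c w (τ • u + τ • u') - Φ n c w (τ • u) - Φ n c w (τ • u') + Φ n c w (τ • u) +
      Φ n c w (τ • u') = Φ n c w (τ • u + τ • u') := by abel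
  rwa [e4] at e3

theorem Ko.smul (hk : L.Rf ⊥ k) (hΦ : Vfn f L ψ π k W Φ) (hn : n ≠ 0) (hkn : k ∣ n)
    (g : Gp L ψ (L.Ur ⊥ n) c w) (hu : Iv L (L.Ur ⊥ n) u) {a : Ω} (ha : a ∈ L.Ur ⊥ n)
    (ha1 : L.nm a ≤ 1) (h : Ko L ψ k W Φ c w u) : Ko L ψ k W Φ c w (a • u) := by
  refine ko_of hk hΦ hn hkn g (c3_smul hu ha ha1) fun τ hτ h1 => ?_
  rw [smul_smul]
  exact h n hn hkn g hu (τ * a) (mul_mem hτ ha) (by
    rw [L.mul]
    exact mul_le_one₀ h1 (L.nonneg _) ha1)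

/-- Congruent `u`. Proof: `ko_of`, `Vfn.congr`. -/
theorem Ko.congr (hk : L.Rf ⊥ k) (hπ : Uf L π) (hΦ : Vfn f L ψ π k W Φ) (hn : n ≠ 0)
    (hkn : k ∣ n) (g : Gp L ψ (L.Ur ⊥ n) c w) (hu : Iv L (L.Ur ⊥ n) u)
    (hu' : Iv L (L.Ur ⊥ n) u') (h : Ko L ψ k W Φ c w u) : Ko L ψ k W Φ c w (u + π • u') := by
  refine ko_of hk hΦ hn hkn g (c3_add hu (c3_smul hu' (hπ.mem _) hπ.lt.le)) fun τ hτ h1 => ?_
  have e := hΦ.congr hn hkn g (c3_smul hu hτ h1) (c3_smul hu' hτ h1) hπ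
  have e1 := add_mem e (h n hn hkn g hu τ hτ h1)
  rw [sub_add_cancel] at e1
  rwa [smul_add, smul_comm τ π u']

/-- Congruent `c`. Proof: `ko_of`, `Vfn.near`; `Gp.sh`. -/
theorem Ko.near (hk : L.Rf ⊥ k) (hπ : Uf L π) (hψ : Pj f L ψ) (hΦ : Vfn f L ψ π k W Φ)
    (hn : n ≠ 0) (hkn : k ∣ n) (g : Gp L ψ (L.Ur ⊥ n) c w) (hu : Iv L (L.Ur ⊥ n) u)
    {x : Fin (d + 1) → Ω} (hx : Iv L (L.Ur ⊥ n) x) (h : Ko L ψ k W Φ c w u) :
    Ko L ψ k W Φ (c + π • x) (sht L ψ w (c + π • x)) u := by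
  have h1 : ∀ r, L.nm ((π • x) r) ≤ L.nm π := fun r => by
    rw [Pi.smul_apply, smul_eq_mul, L.mul]
    exact mul_le_of_le_one_right (L.nonneg _) (hx r).2
  have g' := (g.sh hψ (c3_smul hx (hπ.mem _) hπ.lt.le) hπ.lt h1).1
  refine ko_of hk hΦ hn hkn g' hu fun τ hτ h1 => ?_
  have e := hΦ.near n c w (τ • u) x hn hkn g (c3_smul hu hτ h1) hx
  have e1 := add_mem e (h n hn hkn g hu τ hτ h1)
  rwa [sub_add_cancel] at e1

/-- The unit vectors are enough. Proof: `u = ∑ u r • e_r`, `Vfn.sum`. -/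
theorem Ko.all (hΦ : Vfn f L ψ π k W Φ) (hn : n ≠ 0) (hkn : k ∣ n)
    (g : Gp L ψ (L.Ur ⊥ n) c w) (hu : Iv L (L.Ur ⊥ n) u)
    (h : ∀ r, Ko L ψ k W Φ c w (Pi.single r 1)) : Φ n c w u ∈ W := by
  have e0 : u = ∑ r, u r • (Pi.single r 1 : Fin (d + 1) → Ω) := by
    funext i
    rw [Finset.sum_apply, Finset.sum_eq_single i]
    · rw [Pi.smul_apply, Pi.single_eq_same, smul_eq_mul, mul_one]
    · intro b _ hb
      rw [Pi.smul_apply, Pi.single_eq_of_ne (Ne.symm hb), smul_zero]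
    · intro hi
      exact absurd (Finset.mem_univ i) hi
  have e1 := hΦ.sum hn hkn g Finset.univ
    (v := fun r => u r • (Pi.single r 1 : Fin (d + 1) → Ω))
    fun r _ => c3_smul (c3_one _ r) (hu r).1 (hu r).2
  have e2 : ∑ r, Φ n c w (u r • (Pi.single r 1 : Fin (d + 1) → Ω)) ∈ W :=
    sum_mem fun r _ => h r n hn hkn g (c3_one _ r) (u r) (hu r).1 (hu r).2
  have e3 := add_mem e1 e2
  rw [sub_add_cancel] at e3
  rwa [← e0] at e3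

end GX
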