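import Pool.Agent.Lib.MP_f80667_ag.Lv.Ka

/-! Lagrange polynomials over the integers. -/

open ZC BE PE CV IntermediateField

namespace GX

variable {K Ω : Type} [Field K] [Field Ω] [Algebra K Ω] {L : Ld K Ω}

private theorem lag_mul {M : IntermediateField K Ω} {p q : Polynomial Ω}
    (hp : ∀ i, p.coeff i ∈ M ∧ L.nm (p.coeff i) ≤ 1)
    (hq : ∀ i, q.coeff i ∈ M ∧ L.nm (q.coeff i) ≤ 1) (i : ℕ) :
    (p * q).coeff i ∈ M ∧ L.nm ((p * q).coeff i) ≤ 1 := by
  rw [Polynomial.coeff_mul]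
  refine ⟨sum_mem fun x _ => mul_mem (hp x.1).1 (hq x.2).1, L.sum_le _ _ zero_le_one fun x _ => ?_⟩
  rw [L.mul]
  exact mul_le_one₀ (hp x.1).2 (L.nonneg _) (hq x.2).2

private theorem lag_c {M : IntermediateField K Ω} {a : Ω} (h : a ∈ M) (h1 : L.nm a ≤ 1) (i : ℕ) :
    (Polynomial.C a).coeff i ∈ M ∧ L.nm ((Polynomial.C a).coeff i) ≤ 1 := by
  rw [Polynomial.coeff_C]
  split_ifs
  · exact ⟨h, h1⟩
  · exact ⟨zero_mem _, by rw [L.zero]; exact zero_le_one⟩

private theorem lag_x {M : IntermediateField K Ω} {a : Ω} (h : a ∈ M) (h1 : L.nm a ≤ 1) (i : ℕ) :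
    (Polynomial.X - Polynomial.C a).coeff i ∈ M ∧
      L.nm ((Polynomial.X - Polynomial.C a).coeff i) ≤ 1 := by
  have h2 := lag_c h h1 i
  have h3 : (Polynomial.X : Polynomial Ω).coeff i ∈ M ∧
      L.nm ((Polynomial.X : Polynomial Ω).coeff i) ≤ 1 := by
    rw [Polynomial.coeff_X]
    split_ifs
    · exact ⟨one_mem _, L.one.le⟩
    · exact ⟨zero_mem _, by rw [L.zero]; exact zero_le_one⟩
  rw [Polynomial.coeff_sub]
  refine ⟨sub_mem h3.1 h2.1, ?_⟩
  rw [sub_eq_add_neg]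
  refine (L.add _ _).trans (max_le h3.2 ?_)
  rw [L.neg]
  exact h2.2

/-- Proof: the product of `C (w - w')⁻¹ * (X - C w')` over `w' ∈ R.erase w`. -/
theorem exists_lag {M : IntermediateField K Ω} {R : Finset Ω}
    (hR : ∀ w ∈ R, w ∈ M ∧ L.nm w ≤ 1) (hR' : ∀ w ∈ R, ∀ w' ∈ R, w ≠ w' → L.nm (w - w') = 1)
    {w : Ω} (hw : w ∈ R) : ∃ l : Polynomial Ω, l.natDegree < R.card ∧
      (∀ i, l.coeff i ∈ M ∧ L.nm (l.coeff i) ≤ 1) ∧ l.eval w = 1 ∧
        ∀ w' ∈ R, w' ≠ w → l.eval w' = 0 := by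
  classical
  refine ⟨∏ w' ∈ R.erase w, (Polynomial.C (w - w')⁻¹ * (Polynomial.X - Polynomial.C w')), ?_, ?_,
    ?_, ?_⟩
  · refine lt_of_le_of_lt (Polynomial.natDegree_prod_le _ _) ?_
    refine lt_of_le_of_lt (Finset.sum_le_card_nsmul _ _ 1 fun w' _ => ?_) ?_
    · refine Polynomial.natDegree_mul_le.trans ?_
      rw [Polynomial.natDegree_C, Polynomial.natDegree_X_sub_C]
    · rw [smul_eq_mul, mul_one]
      exact Finset.card_erase_lt_of_mem hw
  · refine Finset.prod_induction _ (fun l : Polynomial Ω =>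
      ∀ i, l.coeff i ∈ M ∧ L.nm (l.coeff i) ≤ 1) (fun p q hp hq => lag_mul hp hq) ?_ ?_
    · have h := lag_c (L := L) (one_mem M) L.one.le
      rwa [Polynomial.C_1] at h
    · intro w' hw'
      have h1 := Finset.mem_erase.1 hw'
      have h2 := hR w hw
      have h3 := hR w' h1.2
      have h4 := hR' w hw w' h1.2 (Ne.symm h1.1)
      have h5 : w - w' ≠ 0 := L.ne_zero (by rw [h4]; exact zero_lt_one)
      have h6 : L.nm (w - w')⁻¹ = 1 := by
        have h7 : L.nm ((w - w') * (w - w')⁻¹) = 1 := by rw [mul_inv_cancel₀ h5]; exact L.one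
        rwa [L.mul, h4, one_mul] at h7
      exact lag_mul (lag_c (inv_mem (sub_mem h2.1 h3.1)) h6.le) (lag_x h3.1 h3.2)
  · rw [Polynomial.eval_prod]
    refine Finset.prod_eq_one fun w' hw' => ?_
    have h1 := Finset.mem_erase.1 hw'
    have h4 := hR' w hw w' h1.2 (Ne.symm h1.1)
    have h5 : w - w' ≠ 0 := L.ne_zero (by rw [h4]; exact zero_lt_one)
    rw [Polynomial.eval_mul, Polynomial.eval_C, Polynomial.eval_sub, Polynomial.eval_X,
      Polynomial.eval_C, inv_mul_cancel₀ h5]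
  · intro w' hw' hne
    rw [Polynomial.eval_prod]
    refine Finset.prod_eq_zero (Finset.mem_erase.2 ⟨hne, hw'⟩) ?_
    rw [Polynomial.eval_mul, Polynomial.eval_sub, Polynomial.eval_X, Polynomial.eval_C,
      Polynomial.eval_C, sub_self, mul_zero]

end GX
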