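import Pool.Agent.Lib.MP_f80667_ag.Lv.Kb
import Pool.Agent.Lib.MP_f80667_ag.Lv.Kc1
import Pool.Agent.Lib.MP_f80667_ag.Lv.Kc
import Pool.Agent.Lib.MP_f80667_ag.Lv.Ko.A

/-! Common fields of definition. -/

open ZC BE PE CV IntermediateField

namespace GX

variable {F : Type} [Field F] {N d : ℕ} {ι : Type} {f : ι → MvPolynomial (Fin N) F} {K Ω : Type}
  [Field K] [CharZero K] [Field Ω] [Algebra K Ω] [Algebra F K] [Algebra F Ω]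
  [IsScalarTower F K Ω] [IsAlgClosure K Ω] {L : Ld K Ω} {ψ : Prj K N d} {π : Ω} {k : ℕ}
  {W : AddSubgroup ((Xf f).pt Ω →₀ ℤ)}
  {Φ : ℕ → (Fin (d + 1) → Ω) → Ω → (Fin (d + 1) → Ω) → (Xf f).pt Ω →₀ ℤ}
  {n : ℕ} {c u u' : Fin (d + 1) → Ω} {w : Ω}

/-- Proof: `rn_fin` for the coordinates, `rts_ur`, `Gp.mono`. -/
theorem exists_gp (hψ : Pj f L ψ) (hk : k ≠ 0) (hc : ∀ r, c r ∈ Rn L)
    (hD : L.nm (MvPolynomial.aeval c ψ.D) = 1) : ∃ n, n ≠ 0 ∧ k ∣ n ∧ Iv L (L.Ur ⊥ n) c ∧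
      ∀ w ∈ rts ψ c, Gp L ψ (L.Ur ⊥ n) c w := by
  classical
  obtain ⟨n₀, h0, hk0, h1, -⟩ := rn_fin (L := L) hk (Finset.univ.image c) (fun x hx => by
    obtain ⟨r, -, rfl⟩ := Finset.mem_image.1 hx
    exact hc r) (∅ : Finset L.κ)
  have hI : Iv L (L.Ur ⊥ n₀) c := fun r =>
    ⟨h1 _ (Finset.mem_image_of_mem c (Finset.mem_univ r)), (hc r).1⟩
  obtain ⟨t, ht, h2⟩ := rts_ur hψ h0 hI hD
  exact ⟨n₀ * t, mul_ne_zero h0 ht, hk0.trans (dvd_mul_right _ _),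
    fun r => ⟨Ld.ur_dvd ⊥ (dvd_mul_right _ _) (hI r).1, (hI r).2⟩, h2⟩

/-- The roots are unit separated. Proof: `Pj.root_uniq`, `rts_le`. -/
theorem rts_sep (hψ : Pj f L ψ) (hc : ∀ r, L.nm (c r) ≤ 1)
    (hD : L.nm (MvPolynomial.aeval c ψ.D) = 1) {w' : Ω} (hw : w ∈ rts ψ c) (hw' : w' ∈ rts ψ c)
    (h : w ≠ w') : L.nm (w - w') = 1 := by
  have h1 := rts_le hψ hc hw
  have h2 := rts_le hψ hc hw'
  have h3 : L.nm (w - w') ≤ 1 := (L.sub w w').trans (max_le h1 h2)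
  by_contra h4
  exact h (hψ.root_uniq hc hD h1 h2 ((mem_rts hψ).1 hw) ((mem_rts hψ).1 hw')
    (lt_of_le_of_ne h3 h4))

end GX
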