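import Pool.Agent.Lib.MP_f80667_ag.Lv.Ko.C3
import Pool.Agent.Lib.MP_f80667_ag.Lv.Ko.D1
import Pool.Agent.Lib.MP_f80667_ag.Lv.Ko.D2

/-! Extension of the vanishing along an arc. -/

open ZC BE PE CV IntermediateField

namespace GX

variable {F : Type} [Field F] {N d : ℕ} {ι : Type} {f : ι → MvPolynomial (Fin N) F} {K Ω : Type}
  [Field K] [CharZero K] [Field Ω] [Algebra K Ω] [Algebra F K] [Algebra F Ω]
  [IsScalarTower F K Ω] [IsAlgClosure K Ω] {L : Ld K Ω} {ψ : Prj K N d} {π : Ω} {k : ℕ}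
  {W : AddSubgroup ((Xf f).pt Ω →₀ ℤ)}
  {Φ : ℕ → (Fin (d + 1) → Ω) → Ω → (Fin (d + 1) → Ω) → (Xf f).pt Ω →₀ ℤ}
  {n : ℕ} {w : Ω}

omit [CharZero K] [IsAlgClosure K Ω] in
private theorem d3_ev {M : IntermediateField K Ω} {p : Polynomial Ω}
    (hp : ∀ j, p.coeff j ∈ M ∧ L.nm (p.coeff j) ≤ 1) {z : Ω} (hz : z ∈ M) (hz1 : L.nm z ≤ 1) :
    p.eval z ∈ M ∧ L.nm (p.eval z) ≤ 1 := by
  rw [Polynomial.eval_eq_sum_range]
  refine ⟨sum_mem fun j _ => mul_mem (hp j).1 (pow_mem hz j), L.sum_le _ _ zero_le_one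
    fun j _ => ?_⟩
  rw [L.mul, L.pow]
  exact mul_le_one₀ (hp j).2 (pow_nonneg (L.nonneg _) _) (pow_le_one₀ (L.nonneg _) hz1)

omit [CharZero K] [IsAlgClosure K Ω] in
private theorem d3_der {M : IntermediateField K Ω} {p : Polynomial Ω}
    (hp : ∀ j, p.coeff j ∈ M ∧ L.nm (p.coeff j) ≤ 1) (j : ℕ) :
    (Polynomial.derivative p).coeff j ∈ M ∧ L.nm ((Polynomial.derivative p).coeff j) ≤ 1 := by
  rw [Polynomial.coeff_derivative]
  have h1 : (j : Ω) + 1 = ((j + 1 : ℕ) : Ω) := by push_cast; rfl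
  rw [h1]
  refine ⟨mul_mem (hp _).1 (_root_.natCast_mem M _), ?_⟩
  rw [L.mul]
  exact mul_le_one₀ (hp _).2 (L.nonneg _) (L.nat_le _)

omit [CharZero K] [IsAlgClosure K Ω] in
private theorem d3_nod {M : IntermediateField K Ω} {T : Finset Ω}
    (hT : ∀ z ∈ T, z ∈ M) (hT' : ∀ z ∈ T, ∀ z' ∈ T, z ≠ z' → L.nm (z - z') = 1) {z : Ω}
    (hz : z ∈ T) : (Polynomial.derivative (∏ c ∈ T, (Polynomial.X - Polynomial.C c))).eval z ∈ M ∧
      L.nm ((Polynomial.derivative (∏ c ∈ T, (Polynomial.X - Polynomial.C c))).eval z) = 1 := by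
  classical
  have h1 : (Polynomial.derivative (∏ c ∈ T, (Polynomial.X - Polynomial.C c))).eval z =
      ∏ c ∈ T.erase z, (z - c) := by
    have h2 := Lagrange.eval_nodal_derivative_eval_node_eq (s := T) (v := fun c : Ω => c) hz
    rw [Lagrange.nodal, Lagrange.nodal, Polynomial.eval_prod] at h2
    rw [h2]
    exact Finset.prod_congr rfl fun c _ => by
      rw [Polynomial.eval_sub, Polynomial.eval_X, Polynomial.eval_C]
  rw [h1]
  refine ⟨prod_mem fun c hc => sub_mem (hT z hz) (hT c (Finset.mem_of_mem_erase hc)), ?_⟩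
  have h3 : ∀ U : Finset Ω, (∀ c ∈ U, L.nm (z - c) = 1) → L.nm (∏ c ∈ U, (z - c)) = 1 := by
    intro U
    induction U using Finset.induction_on with
    | empty => exact fun _ => by rw [Finset.prod_empty, L.one]
    | insert a U ha ih =>
      intro hU
      rw [Finset.prod_insert ha, L.mul, hU a (Finset.mem_insert_self a U),
        ih fun c hc => hU c (Finset.mem_insert_of_mem hc), one_mul]
  exact h3 _ fun c hc => hT' z hz c (Finset.mem_of_mem_erase hc) (Finset.ne_of_mem_erase hc).symm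

/-- **(K2)** Proof: take `n` so large that the roots over all the points of `S ∪ {z}` are in `Ur ⊥ n` (`exists_gp`, finitely many). `l` = Lagrange polynomial (`exists_lag`) of `w` among the roots over `z`; degree `< natDegree ψ.G` (`rts_card`).
For `τ₀` and `j < natDegree ψ.G`: `Vfn.crv` for `insert z S` with `τ = τ₀ m' (z) l_j`, `m = ∏ (X - C c)` over `insert z S`: the terms over `S` are in `W` by `h` (the factor `τ w ^ j / m' (z')` is an integer: `m' (z')` has norm `1`),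
so `∑ w, Φ n (a (z)) w (τ₀ l_j w ^ j a' (z)) ∈ W`; sum over `j` and `Vfn.sum`: `∑ w', Φ n (a (z)) w' (τ₀ l (w') a' (z)) ∈ W`, all the terms with `w' ≠ w` are `Φ .. 0`. `ko_of`. -/
theorem ko_ext (hπ : Uf L π) (hψ : Pj f L ψ) (hk : L.Rf ⊥ k) (hΦ : Vfn f L ψ π k W Φ)
    (hn : n ≠ 0) (hkn : k ∣ n) {a : Fin (d + 1) → Polynomial Ω} (ha : Arc L (L.Ur ⊥ n) a)
    {ρ : ℕ} (hρ : ∀ i, (a i).natDegree ≤ ρ) {S : Finset Ω}
    (hS : ∀ z ∈ S, z ∈ L.Ur ⊥ n ∧ L.nm z ≤ 1 ∧
      L.nm (MvPolynomial.aeval (fun r => (a r).eval z) ψ.D) = 1)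
    (hS' : ∀ z ∈ S, ∀ z' ∈ S, z ≠ z' → L.nm (z - z') = 1)
    (hc : (ψ.G.natDegree - 1) * ρ ≤ S.card) {z : Ω} (hz : z ∈ L.Ur ⊥ n) (hz1 : L.nm z ≤ 1)
    (hzD : L.nm (MvPolynomial.aeval (fun r => (a r).eval z) ψ.D) = 1)
    (hzS : ∀ z' ∈ S, L.nm (z - z') = 1)
    (h : ∀ z' ∈ S, ∀ w', pe (fun r => (a r).eval z') w' ψ.G = 0 → Ko L ψ k W Φ
      (fun r => (a r).eval z') w' (fun r => (Polynomial.derivative (a r)).eval z'))
    (hw : pe (fun r => (a r).eval z) w ψ.G = 0) : Ko L ψ k W Φ (fun r => (a r).eval z) w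
      (fun r => (Polynomial.derivative (a r)).eval z) := by
  classical
  have hk0 : k ≠ 0 := by
    rintro rfl
    exact hn (Nat.eq_zero_of_zero_dvd hkn)
  have hzS' : z ∉ S := fun h1 => by
    have h2 := hzS z h1
    rw [sub_self, L.zero] at h2
    exact zero_ne_one h2
  -- the points of `insert z S`
  have hT : ∀ z' ∈ insert z S, z' ∈ L.Ur ⊥ n ∧ L.nm z' ≤ 1 ∧
      L.nm (MvPolynomial.aeval (fun r => (a r).eval z') ψ.D) = 1 := by
    intro z' hz'
    rcases Finset.mem_insert.1 hz' with rfl | h1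
    · exact ⟨hz, hz1, hzD⟩
    · exact hS z' h1
  have hT' : ∀ z' ∈ insert z S, ∀ z'' ∈ insert z S, z' ≠ z'' → L.nm (z' - z'') = 1 := by
    intro z' hz' z'' hz'' hne
    rcases Finset.mem_insert.1 hz' with rfl | h1 <;> rcases Finset.mem_insert.1 hz'' with rfl | h2
    · exact absurd rfl hne
    · exact hzS z'' h2
    · rw [L.sub_comm]
      exact hzS z' h1
    · exact hS' z' h1 z'' h2 hne
  -- a common field
  have hgp : ∀ z' ∈ insert z S, ∃ t, t ≠ 0 ∧ ∀ w' ∈ rts ψ (fun r => (a r).eval z'),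
      Gp L ψ (L.Ur ⊥ t) (fun r => (a r).eval z') w' := by
    intro z' hz'
    obtain ⟨t, ht, -, -, h1⟩ := exists_gp hψ hk0 (c := fun r => (a r).eval z') (fun r =>
      mem_rn L hn (d3_ev (ha r) (hT z' hz').1 (hT z' hz').2.1).1
        (d3_ev (ha r) (hT z' hz').1 (hT z' hz').2.1).2) (hT z' hz').2.2
    exact ⟨t, ht, h1⟩
  choose! t ht0 ht using hgp
  set N' : ℕ := n * ∏ z' ∈ insert z S, t z' with hN'
  have hN0 : N' ≠ 0 := mul_ne_zero hn (Finset.prod_ne_zero_iff.2 ht0)
  have hnN : n ∣ N' := dvd_mul_right _ _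
  have hkN : k ∣ N' := hkn.trans hnN
  have hle : L.Ur ⊥ n ≤ L.Ur ⊥ N' := Ld.ur_dvd ⊥ hnN
  have hG : ∀ z' ∈ insert z S, ∀ w' ∈ rts ψ (fun r => (a r).eval z'),
      Gp L ψ (L.Ur ⊥ N') (fun r => (a r).eval z') w' := fun z' hz' w' hw' =>
    (ht z' hz' w' hw').mono (Ld.ur_dvd ⊥ ((Finset.dvd_prod_of_mem t hz').mul_left n))
  have haN : Arc L (L.Ur ⊥ N') a := fun i j => ⟨hle (ha i j).1, (ha i j).2⟩
  have hder : ∀ z' ∈ insert z S,
      Iv L (L.Ur ⊥ N') fun r => (Polynomial.derivative (a r)).eval z' := fun z' hz' r =>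
    d3_ev (fun j => d3_der (haN r) j) (hle (hT z' hz').1) (hT z' hz').2.1
  have hzT : z ∈ insert z S := Finset.mem_insert_self z S
  have hwR : w ∈ rts ψ (fun r => (a r).eval z) := (mem_rts hψ).2 hw
  have hc1 : ∀ r, L.nm ((a r).eval z) ≤ 1 := fun r => (d3_ev (ha r) hz hz1).2
  obtain ⟨l, hl1, hl2, hl3, hl4⟩ := exists_lag (L := L) (M := L.Ur ⊥ N')
    (R := rts ψ (fun r => (a r).eval z))
    (fun w' hw' => ⟨(hG z hzT w' hw').mem, (hG z hzT w' hw').le⟩)
    (fun w' hw' w'' hw'' hne => rts_sep hψ hc1 hzD hw' hw'' hne) hwR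
  have hdeg : l.natDegree ≤ ψ.G.natDegree - 1 := by
    have h1 := rts_card (ψ := ψ) (c := fun r => (a r).eval z)
    omega
  -- the derivative of the product
  have hm : ∀ z' ∈ insert z S, (Polynomial.derivative
      (∏ c ∈ insert z S, (Polynomial.X - Polynomial.C c))).eval z' ∈ L.Ur ⊥ N' ∧
      L.nm ((Polynomial.derivative
        (∏ c ∈ insert z S, (Polynomial.X - Polynomial.C c))).eval z') = 1 := fun z' hz' =>
    d3_nod (fun c hc => hle (hT c hc).1) hT' hz'
  refine ko_of hk hΦ hN0 hkN (hG z hzT w hwR) (hder z hzT) fun τ hτ hτ1 => ?_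
  have hm0 : (Polynomial.derivative
      (∏ c ∈ insert z S, (Polynomial.X - Polynomial.C c))).eval z ≠ 0 := fun h1 => by
    have h2 := (hm z hzT).2
    rw [h1, L.zero] at h2
    exact zero_ne_one h2
  -- one power of `w`
  have hj : ∀ j ∈ Finset.range (l.natDegree + 1),
      ∑ w' ∈ rts ψ (fun r => (a r).eval z), Φ N' (fun r => (a r).eval z) w'
        ((τ * l.coeff j * w' ^ j) • fun r => (Polynomial.derivative (a r)).eval z) ∈ W := by
    intro j hj
    have hj' : j ≤ l.natDegree := Nat.lt_succ_iff.1 (Finset.mem_range.1 hj)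
    have hjc : j * ρ < (insert z S).card := by
      rw [Finset.card_insert_of_notMem hzS']
      exact Nat.lt_succ_of_le ((Nat.mul_le_mul_right ρ (hj'.trans hdeg)).trans hc)
    have hτj : τ * (Polynomial.derivative
        (∏ c ∈ insert z S, (Polynomial.X - Polynomial.C c))).eval z * l.coeff j ∈ L.Ur ⊥ N' :=
      mul_mem (mul_mem hτ (hm z hzT).1) (hl2 j).1
    have hτj1 : L.nm (τ * (Polynomial.derivative
        (∏ c ∈ insert z S, (Polynomial.X - Polynomial.C c))).eval z * l.coeff j) ≤ 1 := by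
      rw [L.mul, L.mul, (hm z hzT).2, mul_one]
      exact mul_le_one₀ hτ1 (L.nonneg _) (hl2 j).2
    have h1 := hΦ.crv N' a ρ (insert z S) j _ hN0 hkN haN hρ
      (fun z' hz' => ⟨hle (hT z' hz').1, (hT z' hz').2⟩) hT' hjc hτj hτj1
      (fun z' hz' w' hw' => (hG z' hz' w' hw').mem)
    rw [Finset.sum_insert hzS'] at h1
    have h2 : ∑ z' ∈ S, ∑ w' ∈ rts ψ (fun r => (a r).eval z'),
        Φ N' (fun r => (a r).eval z') w' (fun r => τ * (Polynomial.derivative
          (∏ c ∈ insert z S, (Polynomial.X - Polynomial.C c))).eval z * l.coeff j * w' ^ j /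
          (Polynomial.derivative
            (∏ c ∈ insert z S, (Polynomial.X - Polynomial.C c))).eval z' *
            (Polynomial.derivative (a r)).eval z') ∈ W := by
      refine sum_mem fun z' hz' => sum_mem fun w' hw' => ?_
      have hz'T : z' ∈ insert z S := Finset.mem_insert_of_mem hz'
      refine h z' hz' w' ((mem_rts hψ).1 hw') N' hN0 hkN (hG z' hz'T w' hw') (hder z' hz'T)
        (τ * (Polynomial.derivative
          (∏ c ∈ insert z S, (Polynomial.X - Polynomial.C c))).eval z * l.coeff j * w' ^ j /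
          (Polynomial.derivative
            (∏ c ∈ insert z S, (Polynomial.X - Polynomial.C c))).eval z')
        (div_mem (mul_mem hτj (pow_mem (hG z' hz'T w' hw').mem j)) (hm z' hz'T).1) ?_
      rw [L.div, (hm z' hz'T).2, div_one, L.mul, L.pow]
      exact mul_le_one₀ hτj1 (pow_nonneg (L.nonneg _) _)
        (pow_le_one₀ (L.nonneg _) (hG z' hz'T w' hw').le)
    have h3 := (add_mem_cancel_right h2).1 h1
    have h9 : ∀ w' : Ω, ((τ * l.coeff j * w' ^ j) •
        fun r => (Polynomial.derivative (a r)).eval z) = fun r => τ * (Polynomial.derivative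
          (∏ c ∈ insert z S, (Polynomial.X - Polynomial.C c))).eval z * l.coeff j * w' ^ j /
          (Polynomial.derivative
            (∏ c ∈ insert z S, (Polynomial.X - Polynomial.C c))).eval z *
            (Polynomial.derivative (a r)).eval z := by
      intro w'
      funext r
      rw [Pi.smul_apply, smul_eq_mul]
      field_simp
    simp only [h9]
    exact h3
  -- the sum over the powers
  have hv : ∀ w' ∈ rts ψ (fun r => (a r).eval z), ∀ j ∈ Finset.range (l.natDegree + 1),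
      Iv L (L.Ur ⊥ N') ((τ * l.coeff j * w' ^ j) •
        fun r => (Polynomial.derivative (a r)).eval z) := by
    intro w' hw' j _ r
    rw [Pi.smul_apply, smul_eq_mul]
    refine ⟨mul_mem (mul_mem (mul_mem hτ (hl2 j).1) (pow_mem (hG z hzT w' hw').mem j))
      (hder z hzT r).1, ?_⟩
    rw [L.mul, L.mul, L.mul, L.pow]
    exact mul_le_one₀ (mul_le_one₀ (mul_le_one₀ hτ1 (L.nonneg _) (hl2 j).2)
      (pow_nonneg (L.nonneg _) _) (pow_le_one₀ (L.nonneg _) (hG z hzT w' hw').le))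
      (L.nonneg _) (hder z hzT r).2
  have h4 : ∑ w' ∈ rts ψ (fun r => (a r).eval z), ∑ j ∈ Finset.range (l.natDegree + 1),
      Φ N' (fun r => (a r).eval z) w'
        ((τ * l.coeff j * w' ^ j) • fun r => (Polynomial.derivative (a r)).eval z) ∈ W := by
    rw [Finset.sum_comm]
    exact sum_mem hj
  have h5 : ∀ w' ∈ rts ψ (fun r => (a r).eval z), Φ N' (fun r => (a r).eval z) w'
      ((τ * l.eval w') • fun r => (Polynomial.derivative (a r)).eval z) -
      ∑ j ∈ Finset.range (l.natDegree + 1), Φ N' (fun r => (a r).eval z) w'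
        ((τ * l.coeff j * w' ^ j) • fun r => (Polynomial.derivative (a r)).eval z) ∈ W := by
    intro w' hw'
    have h6 := hΦ.sum hN0 hkN (hG z hzT w' hw') (Finset.range (l.natDegree + 1)) (hv w' hw')
    have h7 : ∑ j ∈ Finset.range (l.natDegree + 1), ((τ * l.coeff j * w' ^ j) •
        fun r => (Polynomial.derivative (a r)).eval z) =
        (τ * l.eval w') • fun r => (Polynomial.derivative (a r)).eval z := by
      rw [← Finset.sum_smul, Polynomial.eval_eq_sum_range, Finset.mul_sum]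
      congr 1
      exact Finset.sum_congr rfl fun j _ => mul_assoc _ _ _
    rw [h7] at h6
    exact h6
  have h8 : ∑ w' ∈ rts ψ (fun r => (a r).eval z), Φ N' (fun r => (a r).eval z) w'
      ((τ * l.eval w') • fun r => (Polynomial.derivative (a r)).eval z) ∈ W := by
    have h9 := add_mem (sum_mem h5) h4
    rw [← Finset.sum_add_distrib] at h9
    simp only [sub_add_cancel] at h9
    exact h9
  rw [← Finset.add_sum_erase _ _ hwR] at h8
  have h10 : ∑ w' ∈ (rts ψ (fun r => (a r).eval z)).erase w, Φ N' (fun r => (a r).eval z) w'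
      ((τ * l.eval w') • fun r => (Polynomial.derivative (a r)).eval z) ∈ W := by
    refine sum_mem fun w' hw' => ?_
    rw [hl4 w' (Finset.mem_of_mem_erase hw') (Finset.ne_of_mem_erase hw'), mul_zero, zero_smul]
    exact hΦ.zero hN0 hkN (hG z hzT w' (Finset.mem_of_mem_erase hw'))
  have h11 := (add_mem_cancel_right h10).1 h8
  rw [hl3, mul_one] at h11
  exact h11

end GX
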