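import Mathlib

/-! The grid lemma: a property of the points which is carried along arcs. -/

namespace GX

variable {κ : Type} [Field κ] [IsAlgClosed κ] {p d : ℕ} [CharP κ p]

/-- **(K3)** Proof: the claim for `A : Finset (Fin (d + 1))`: `Q y` for all good `y` with `y i ∈ S` for `i ∉ A`. `∅`: `h`. `{i₀}`: the arc `a i₀ = X`, `a i = C (y i)`. From `A` (with `i₀ ∈ A`) to `insert s A`: `t ^ p = y s`, the arc
`a i₀ = X + C (y i₀ - t)`, `a s = X ^ p`, `a i = C (y i)`, its nodes: the `z` with `z ^ p ∈ S` (the image of `S` under the inverse of the Frobenius) and `D (a (z)) ≠ 0`: the polynomial `D (a)` has degree `≤ e p` (`MvPolynomial.aeval_natDegree_le`) and is not `0` at `t`. If `t` is a node, it is `Q` at a node. -/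
theorem grid (hp : p.Prime) (D : MvPolynomial (Fin (d + 1)) κ) {e B : ℕ}
    (he : D.totalDegree ≤ e) (i₀ : Fin (d + 1)) (Q : (Fin (d + 1) → κ) → Prop)
    (hQ : ∀ a : Fin (d + 1) → Polynomial κ, (∀ i, (a i).natDegree ≤ p) →
      (∀ i, Polynomial.derivative (a i) = Polynomial.C ((Pi.single i₀ 1 : Fin (d + 1) → κ) i)) →
      ∀ S : Finset κ, B ≤ S.card →
        (∀ z ∈ S, MvPolynomial.eval (fun r => (a r).eval z) D ≠ 0 ∧
          Q (fun r => (a r).eval z)) →
        ∀ z, z ∉ S → MvPolynomial.eval (fun r => (a r).eval z) D ≠ 0 →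
          Q (fun r => (a r).eval z))
    (S : Finset κ) (hS : B + e * p ≤ S.card)
    (h : ∀ y, (∀ i, y i ∈ S) → MvPolynomial.eval y D ≠ 0 → Q y) (y : Fin (d + 1) → κ)
    (hy : MvPolynomial.eval y D ≠ 0) : Q y := by
  sorry

end GX
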