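import Pool.Agent.Lib.MP_f80667_ag.Lv.Kb
import Pool.Agent.Lib.MP_f80667_ag.Lv.Kb1

/-! Lifts of arcs and nodes. -/

open ZC BE PE CV IntermediateField

namespace GX

variable {K Ω : Type} [Field K] [CharZero K] [Field Ω] [Algebra K Ω] [IsAlgClosure K Ω]
  {L : Ld K Ω} {d k : ℕ}

/-- The polynomial over `Ω`. -/
noncomputable def pom (b : Polynomial (Rn L)) : Polynomial Ω := b.map (Rn L).subtype

/-- Proof: `Polynomial.mem_lifts_and_degree_eq` or `Polynomial.mem_lifts`, `rdn_surj`. -/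
theorem exists_plift (a : Polynomial L.κ) :
    ∃ b : Polynomial (Rn L), b.map (rdn L) = a ∧ b.natDegree ≤ a.natDegree := by
  have h : a ∈ Polynomial.lifts (rdn L) :=
    (Polynomial.lifts_iff_coeff_lifts a).2 fun n => rdn_surj (a.coeff n)
  obtain ⟨b, hb, hd⟩ := Polynomial.exists_degree_eq_of_mem_lifts h
  exact ⟨b, hb, (Polynomial.natDegree_eq_of_degree_eq hd).le⟩

/-- Finitely many data over one field. Proof: `rn_fin` for the finset of all coefficients and elements. -/
theorem exists_ur_arc (hk : k ≠ 0) (b : Fin (d + 1) → Polynomial (Rn L)) (S : Finset Ω)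
    (hS : ∀ z ∈ S, z ∈ Rn L) : ∃ n, n ≠ 0 ∧ k ∣ n ∧ Arc L (L.Ur ⊥ n) (fun i => pom (b i)) ∧
      ∀ z ∈ S, z ∈ L.Ur ⊥ n := by
  classical
  obtain ⟨n, hn, hkn, h1, -⟩ := rn_fin (L := L) hk
    (S ∪ Finset.univ.biUnion fun i => (b i).support.image fun j => (((b i).coeff j : Rn L) : Ω))
    (fun x hx => by
      rcases Finset.mem_union.1 hx with hx | hx
      · exact hS x hx
      · obtain ⟨i, -, hx⟩ := Finset.mem_biUnion.1 hx
        obtain ⟨j, -, rfl⟩ := Finset.mem_image.1 hx
        exact ((b i).coeff j).2) ∅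
  refine ⟨n, hn, hkn, fun i j => ?_, fun z hz => h1 z (Finset.mem_union_left _ hz)⟩
  have e1 : (pom (b i)).coeff j = (((b i).coeff j : Rn L) : Ω) := by
    rw [pom, Polynomial.coeff_map]
    rfl
  rw [e1]
  refine ⟨?_, rn_le L _⟩
  by_cases h0 : (b i).coeff j = 0
  · rw [h0]
    exact zero_mem _
  · refine h1 _ (Finset.mem_union_right _ (Finset.mem_biUnion.2 ⟨i, Finset.mem_univ i, ?_⟩))
    exact Finset.mem_image.2 ⟨j, Polynomial.mem_support_iff.2 h0, rfl⟩

omit [CharZero K] [IsAlgClosure K Ω] in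
theorem pom_eval (b : Polynomial (Rn L)) (z : Rn L) :
    (pom b).eval (z : Ω) = ((b.eval z : Rn L) : Ω) := by
  rw [pom, Polynomial.eval_map]
  exact Polynomial.eval₂_at_apply (Rn L).subtype z

omit [CharZero K] [IsAlgClosure K Ω] in
theorem pom_der (b : Polynomial (Rn L)) (z : Rn L) :
    (Polynomial.derivative (pom b)).eval (z : Ω) = (((Polynomial.derivative b).eval z : Rn L) : Ω) := by
  rw [pom, Polynomial.derivative_map]
  exact pom_eval (Polynomial.derivative b) z

omit [CharZero K] [IsAlgClosure K Ω] in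
theorem rdn_eval (b : Polynomial (Rn L)) (z : Rn L) :
    rdn L (b.eval z) = (b.map (rdn L)).eval (rdn L z) := by
  rw [Polynomial.eval_map]
  exact (Polynomial.eval₂_at_apply (rdn L) z).symm

omit [CharZero K] [IsAlgClosure K Ω] in
/-- Elements with different residues are unit separated. Proof: `L.hv_zero`. -/
theorem rdn_sep {z z' : Rn L} (h : rdn L z ≠ rdn L z') : L.nm ((z : Ω) - z') = 1 := by
  refine le_antisymm (rn_le L (z - z')) (not_lt.1 fun h1 => h ?_)
  have h2 : rdn L (z - z') = 0 := (rdn_hv L (z - z')).uniq (L.hv_zero.2 h1)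
  rwa [map_sub, sub_eq_zero] at h2

end GX
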