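import Pool.Agent.Lib.MP_f80667_ag.Lv.Ko.C3
import Pool.Agent.Lib.MP_f80667_ag.Lv.Ko.D2
import Pool.Agent.Lib.MP_f80667_ag.Lv.Ko.E2

/-! All roots over the lifts of a point. -/

open ZC BE PE CV IntermediateField

namespace GX

variable {F : Type} [Field F] {N d : ℕ} {ι : Type} {f : ι → MvPolynomial (Fin N) F} {K Ω : Type}
  [Field K] [CharZero K] [Field Ω] [Algebra K Ω] [Algebra F K] [Algebra F Ω]
  [IsScalarTower F K Ω] [IsAlgClosure K Ω] {L : Ld K Ω} {ψ : Prj K N d} {π : Ω} {k : ℕ}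
  {W : AddSubgroup ((Xf f).pt Ω →₀ ℤ)}
  {Φ : ℕ → (Fin (d + 1) → Ω) → Ω → (Fin (d + 1) → Ω) → (Xf f).pt Ω →₀ ℤ}

/-- `Ko` at all roots over the lifts of `y`. -/
def Kq (L : Ld K Ω) (ψ : Prj K N d) (k : ℕ) (W : AddSubgroup ((Xf f).pt Ω →₀ ℤ))
    (Φ : ℕ → (Fin (d + 1) → Ω) → Ω → (Fin (d + 1) → Ω) → (Xf f).pt Ω →₀ ℤ) (i₀ : Fin (d + 1))
    (y : Fin (d + 1) → L.κ) : Prop :=
  ∀ c : Fin (d + 1) → Rn L, (∀ r, rdn L (c r) = y r) → ∀ w,
    pe (fun r => (c r : Ω)) w ψ.G = 0 → Ko L ψ k W Φ (fun r => (c r : Ω)) w (Pi.single i₀ 1)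

/-- One lift is enough. Proof: `c' = c + π x` (`Uf.rdn_ker`), `w'` over `c'`: `w = sht L ψ w' c` is a root over `c` near `w'` (`Gp.sh` for `c = c' + π (-x)`), `sht L ψ w c' = w'` (`sht_eq`), `Ko.near`; `exists_gp`, `rn_fin` for a common field. -/
theorem kq_of (hπ : Uf L π) (hψ : Pj f L ψ) (hk : L.Rf ⊥ k) (hΦ : Vfn f L ψ π k W Φ)
    {i₀ : Fin (d + 1)} {c : Fin (d + 1) → Rn L}
    (hD : L.nm (MvPolynomial.aeval (fun r => (c r : Ω)) ψ.D) = 1)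
    (h : ∀ w, pe (fun r => (c r : Ω)) w ψ.G = 0 →
      Ko L ψ k W Φ (fun r => (c r : Ω)) w (Pi.single i₀ 1)) :
    Kq L ψ k W Φ i₀ (fun r => rdn L (c r)) := by
  classical
  intro c' hc' w' hw'
  have h1 : ∀ r, ∃ y, c' r - c r = hπ.rn * y := fun r =>
    hπ.rdn_ker (c' r - c r) (by rw [map_sub, hc' r, sub_self])
  choose y hy using h1
  have hyc : ∀ r, (c' r : Ω) = (c r : Ω) + π * (y r : Ω) := fun r => by
    have h2 := congrArg (fun z : Rn L => (z : Ω)) (hy r)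
    have h3 : (c' r : Ω) - (c r : Ω) = π * (y r : Ω) := h2
    rw [← h3]
    ring
  have hpy : ∀ r, L.nm (π * (y r : Ω)) ≤ L.nm π := fun r => by
    rw [L.mul]
    exact mul_le_of_le_one_right (L.nonneg _) (rn_le L (y r))
  have hc1 : ∀ r, L.nm (c r : Ω) ≤ 1 := fun r => rn_le L _
  have hc1' : ∀ r, L.nm (c' r : Ω) ≤ 1 := fun r => rn_le L _
  have hD' : L.nm (MvPolynomial.aeval (fun r => (c' r : Ω)) ψ.D) = 1 := by
    refine hψ.D_close hc1 hc1' (fun r => ?_) hD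
    have e1 : (c r : Ω) - (c' r : Ω) = -(π * (y r : Ω)) := by
      rw [hyc r]
      ring
    rw [e1, L.neg]
    exact (hpy r).trans_lt hπ.lt
  obtain ⟨n₀, hn₀, hkn₀, hF, -⟩ := rn_fin (L := L) hk.ne
    ((Finset.univ.image fun r => (c' r : Ω)) ∪ Finset.univ.image fun r => (y r : Ω))
    (fun x hx => by
      rcases Finset.mem_union.1 hx with hx | hx
      · obtain ⟨r, -, rfl⟩ := Finset.mem_image.1 hx
        exact (c' r).2
      · obtain ⟨r, -, rfl⟩ := Finset.mem_image.1 hx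
        exact (y r).2) ∅
  have hIc : Iv L (L.Ur ⊥ n₀) (fun r => (c' r : Ω)) := fun r =>
    ⟨hF _ (Finset.mem_union_left _ (Finset.mem_image_of_mem _ (Finset.mem_univ r))), hc1' r⟩
  obtain ⟨t, ht, hG⟩ := rts_ur hψ hn₀ hIc hD'
  have g' := hG w' ((mem_rts hψ).2 hw')
  have hIy : Iv L (L.Ur ⊥ (n₀ * t)) (fun r => (y r : Ω)) := fun r =>
    ⟨Ld.ur_dvd ⊥ (dvd_mul_right _ _)
      (hF _ (Finset.mem_union_right _ (Finset.mem_image_of_mem _ (Finset.mem_univ r)))),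
      rn_le L _⟩
  have hIpy : Iv L (L.Ur ⊥ (n₀ * t)) (-(π • fun r => (y r : Ω))) := fun r => by
    refine ⟨neg_mem (mul_mem (hπ.mem _) (hIy r).1), ?_⟩
    change L.nm (-(π * (y r : Ω))) ≤ 1
    rw [L.neg]
    exact (hpy r).trans hπ.lt.le
  have e2 : (fun r => (c' r : Ω)) + -(π • fun r => (y r : Ω)) = fun r => (c r : Ω) := by
    funext r
    change (c' r : Ω) + -(π * (y r : Ω)) = c r
    rw [hyc r]
    ring
  have e3 : (fun r => (c r : Ω)) + π • (fun r => (y r : Ω)) = fun r => (c' r : Ω) := by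
    funext r
    change (c r : Ω) + π * (y r : Ω) = c' r
    rw [hyc r]
  obtain ⟨g, g2⟩ := g'.sh hψ hIpy hπ.lt (fun r => by
    change L.nm (-(π * (y r : Ω))) ≤ L.nm π
    rw [L.neg]
    exact hpy r)
  rw [e2] at g g2
  have hsh : sht L ψ (sht L ψ w' fun r => (c r : Ω)) (fun r => (c' r : Ω)) = w' := by
    refine sht_eq hψ hc1' hD' g.le hw' ?_
    have e4 : w' - sht L ψ w' (fun r => (c r : Ω)) =
        -(sht L ψ w' (fun r => (c r : Ω)) - w') := by ring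
    rw [e4, L.neg]
    exact g2.trans_lt hπ.lt
  have hu : Iv L (L.Ur ⊥ (n₀ * t)) (Pi.single i₀ 1) := fun r => by
    by_cases hr : r = i₀
    · subst hr
      rw [Pi.single_eq_same]
      exact ⟨one_mem _, L.one.le⟩
    · rw [Pi.single_eq_of_ne hr]
      exact ⟨zero_mem _, by rw [L.zero]; exact zero_le_one⟩
  have h5 := Ko.near hk hπ hψ hΦ (mul_ne_zero hn₀ ht) (hkn₀.trans (dvd_mul_right _ _)) g hu hIy
    (h _ g.G)
  rw [e3, hsh] at h5
  exact h5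

end GX
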