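import Pool.Agent.Lib.MP_f80667_ag.Lv.Ko.D3
import Pool.Agent.Lib.MP_f80667_ag.Lv.Ko.E3

/-! Arcs of points over the residue field. -/

open ZC BE PE CV IntermediateField

namespace GX

variable {F : Type} [Field F] {N d : ℕ} {ι : Type} {f : ι → MvPolynomial (Fin N) F} {K Ω : Type}
  [Field K] [CharZero K] [Field Ω] [Algebra K Ω] [Algebra F K] [Algebra F Ω]
  [IsScalarTower F K Ω] [IsAlgClosure K Ω] {L : Ld K Ω} {ψ : Prj K N d} {π : Ω} {k : ℕ}
  {W : AddSubgroup ((Xf f).pt Ω →₀ ℤ)}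
  {Φ : ℕ → (Fin (d + 1) → Ω) → Ω → (Fin (d + 1) → Ω) → (Xf f).pt Ω →₀ ℤ}

/-- `Ko` for congruent vectors. -/
private theorem e4_congr (hπ : Uf L π) (hψ : Pj f L ψ) (hk : L.Rf ⊥ k) (hΦ : Vfn f L ψ π k W Φ)
    {c : Fin (d + 1) → Rn L} (hD : L.nm (MvPolynomial.aeval (fun r => (c r : Ω)) ψ.D) = 1)
    {w : Ω} (hw : pe (fun r => (c r : Ω)) w ψ.G = 0) {u u' : Fin (d + 1) → Rn L}
    (hu : ∀ r, rdn L (u r) = rdn L (u' r))
    (h : Ko L ψ k W Φ (fun r => (c r : Ω)) w (fun r => (u r : Ω))) :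
    Ko L ψ k W Φ (fun r => (c r : Ω)) w (fun r => (u' r : Ω)) := by
  classical
  have h0 : ∀ r, ∃ y : Rn L, u' r - u r = hπ.rn * y := fun r =>
    hπ.rdn_ker _ (by rw [map_sub, hu r, sub_self])
  choose x hx using h0
  obtain ⟨n₁, h1, hk1, -, hg⟩ := exists_gp hψ hk.ne (fun r => (c r).2) hD
  obtain ⟨n₂, h2, -, hm, -⟩ := rn_fin (L := L) hk.ne
    ((Finset.univ.image fun r => (u r : Ω)) ∪ Finset.univ.image fun r => (x r : Ω))
    (fun y hy => by
      rcases Finset.mem_union.1 hy with hy | hy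
      · obtain ⟨r, -, rfl⟩ := Finset.mem_image.1 hy
        exact (u r).2
      · obtain ⟨r, -, rfl⟩ := Finset.mem_image.1 hy
        exact (x r).2) (∅ : Finset L.κ)
  have g : Gp L ψ (L.Ur ⊥ (n₁ * n₂)) (fun r => (c r : Ω)) w :=
    (hg w ((mem_rts hψ).2 hw)).mono fun _ hy => Ld.ur_dvd ⊥ (dvd_mul_right _ _) hy
  have hu1 : Iv L (L.Ur ⊥ (n₁ * n₂)) fun r => (u r : Ω) := fun r =>
    ⟨Ld.ur_dvd ⊥ (dvd_mul_left _ _) (hm _ (Finset.mem_union_left _
      (Finset.mem_image_of_mem (fun r => (u r : Ω)) (Finset.mem_univ r)))), rn_le L _⟩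
  have hx1 : Iv L (L.Ur ⊥ (n₁ * n₂)) fun r => (x r : Ω) := fun r =>
    ⟨Ld.ur_dvd ⊥ (dvd_mul_left _ _) (hm _ (Finset.mem_union_right _
      (Finset.mem_image_of_mem (fun r => (x r : Ω)) (Finset.mem_univ r)))), rn_le L _⟩
  have h3 := Ko.congr hk hπ hΦ (mul_ne_zero h1 h2) (hk1.trans (dvd_mul_right _ _)) g hu1 hx1 h
  have e : (fun r => (u' r : Ω)) = (fun r => (u r : Ω)) + π • fun r => (x r : Ω) := by
    funext r
    have h4 : u' r = u r + hπ.rn * x r := by rw [← hx r]; ring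
    rw [Pi.add_apply, Pi.smul_apply, smul_eq_mul, h4]
    rfl
  rw [e]
  exact h3

/-- `Kq` is carried along arcs. Proof: lift `a` to `b` (`exists_plift`), the nodes and `z` to `Rn L` (`rdn_surj`, `Function.surjInv`; `S` is mapped injectively), a common field `n` (`exists_ur_arc`). `ko_ext` for `pom (b i)`: at the nodes `Kq` gives `Ko` at `e_(i₀)`, the derivative of the arc is
congruent to `e_(i₀)` (`Polynomial.derivative_map`, `Uf.rdn_ker`), `Ko.congr` (`exists_gp`: `Gp` over a larger field). At `z`: `Ko.congr` again and `kq_of`. Good points: `rD_one`. -/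
theorem kq_arc (hπ : Uf L π) (hψ : Pj f L ψ) (hk : L.Rf ⊥ k) (hΦ : Vfn f L ψ π k W Φ)
    {i₀ : Fin (d + 1)} (a : Fin (d + 1) → Polynomial L.κ) {ρ : ℕ} (hρ : ∀ i, (a i).natDegree ≤ ρ)
    (ha : ∀ i, Polynomial.derivative (a i) =
      Polynomial.C ((Pi.single i₀ 1 : Fin (d + 1) → L.κ) i)) (S : Finset L.κ)
    (hS : (ψ.G.natDegree - 1) * ρ ≤ S.card)
    (h : ∀ z ∈ S, MvPolynomial.eval (fun r => (a r).eval z) (rD L ψ) ≠ 0 ∧
      Kq L ψ k W Φ i₀ (fun r => (a r).eval z)) {z : L.κ} (hz : z ∉ S)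
    (hzD : MvPolynomial.eval (fun r => (a r).eval z) (rD L ψ) ≠ 0) :
    Kq L ψ k W Φ i₀ (fun r => (a r).eval z) := by
  classical
  obtain ⟨b, hb⟩ : ∃ b : Fin (d + 1) → Polynomial (Rn L), ∀ i, (b i).map (rdn L) = a i ∧
      (b i).natDegree ≤ (a i).natDegree :=
    ⟨fun i => (exists_plift (a i)).choose, fun i => (exists_plift (a i)).choose_spec⟩
  obtain ⟨σ, hσ⟩ : ∃ σ : L.κ → Rn L, ∀ y, rdn L (σ y) = y :=
    ⟨fun y => (rdn_surj (L := L) y).choose, fun y => (rdn_surj (L := L) y).choose_spec⟩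
  have hσi : Function.Injective fun y : L.κ => (σ y : Ω) := by
    intro y y' h1
    have h2 : σ y = σ y' := Subtype.ext h1
    rw [← hσ y, h2, hσ]
  have hev : ∀ (y : L.κ) (r : Fin (d + 1)), rdn L ((b r).eval (σ y)) = (a r).eval y := by
    intro y r
    rw [rdn_eval, (hb r).1, hσ]
  have hdv : ∀ (y : L.κ) (r : Fin (d + 1)), rdn L ((Polynomial.derivative (b r)).eval (σ y)) =
      rdn L ((Pi.single i₀ 1 : Fin (d + 1) → Rn L) r) := by
    intro y r
    rw [rdn_eval, ← Polynomial.derivative_map, (hb r).1, ha r, Polynomial.eval_C]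
    by_cases h1 : r = i₀
    · subst h1
      rw [Pi.single_eq_same, Pi.single_eq_same, map_one]
    · rw [Pi.single_eq_of_ne h1, Pi.single_eq_of_ne h1, map_zero]
  have hDy : ∀ y : L.κ, MvPolynomial.eval (fun r => (a r).eval y) (rD L ψ) ≠ 0 →
      L.nm (MvPolynomial.aeval (fun r => (((b r).eval (σ y) : Rn L) : Ω)) ψ.D) = 1 := by
    intro y h1
    refine (rD_one hψ fun r => (b r).eval (σ y)).1 ?_
    simp only [hev]
    exact h1
  have hsg : (fun r => (((Pi.single i₀ 1 : Fin (d + 1) → Rn L) r : Rn L) : Ω)) =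
      (Pi.single i₀ 1 : Fin (d + 1) → Ω) := by
    funext r
    by_cases h1 : r = i₀
    · subst h1
      rw [Pi.single_eq_same, Pi.single_eq_same]
      rfl
    · rw [Pi.single_eq_of_ne h1, Pi.single_eq_of_ne h1]
      rfl
  obtain ⟨n, hn, hkn, hA, hm⟩ := exists_ur_arc hk.ne b
    (insert (σ z : Ω) (S.image fun y => (σ y : Ω))) (fun y hy => by
      rcases Finset.mem_insert.1 hy with rfl | hy
      · exact (σ z).2
      · obtain ⟨y', -, rfl⟩ := Finset.mem_image.1 hy
        exact (σ y').2)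
  have hc : Kq L ψ k W Φ i₀ (fun r => rdn L ((b r).eval (σ z))) := by
    refine kq_of hπ hψ hk hΦ (hDy z hzD) fun w hw => ?_
    have h1 := ko_ext (S := S.image fun y => (σ y : Ω)) (ρ := ρ) (w := w) hπ hψ hk hΦ hn hkn hA
      (fun i => (Polynomial.natDegree_map_le).trans ((hb i).2.trans (hρ i)))
      (fun y hy => by
        obtain ⟨y', hy', rfl⟩ := Finset.mem_image.1 hy
        refine ⟨hm _ (Finset.mem_insert_of_mem hy), rn_le L _, ?_⟩
        simp only [pom_eval]
        exact hDy y' (h y' hy').1)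
      (fun y hy y₂ hy₂ hne => by
        obtain ⟨y', -, rfl⟩ := Finset.mem_image.1 hy
        obtain ⟨y₂', -, rfl⟩ := Finset.mem_image.1 hy₂
        refine rdn_sep fun h2 => hne ?_
        rw [hσ, hσ] at h2
        change (σ y' : Ω) = σ y₂'
        rw [h2])
      (by
        rw [Finset.card_image_of_injective _ hσi]
        exact hS)
      (hm _ (Finset.mem_insert_self _ _)) (rn_le L (σ z))
      (by
        simp only [pom_eval]
        exact hDy z hzD)
      (fun y hy => by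
        obtain ⟨y', hy', rfl⟩ := Finset.mem_image.1 hy
        refine rdn_sep fun h2 => hz ?_
        rw [hσ, hσ] at h2
        rw [h2]
        exact hy')
      (fun y hy w' hw' => by
        obtain ⟨y', hy', rfl⟩ := Finset.mem_image.1 hy
        change pe (fun r => (pom (b r)).eval ((σ y' : Rn L) : Ω)) w' ψ.G = 0 at hw'
        change Ko L ψ k W Φ (fun r => (pom (b r)).eval ((σ y' : Rn L) : Ω)) w'
          (fun r => (Polynomial.derivative (pom (b r))).eval ((σ y' : Rn L) : Ω))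
        simp only [pom_eval] at hw' ⊢
        simp only [pom_der]
        have h3 := (h y' hy').2 (fun r => (b r).eval (σ y')) (hev y') w' hw'
        rw [← hsg] at h3
        exact e4_congr hπ hψ hk hΦ (hDy y' (h y' hy').1) hw' (fun r => (hdv y' r).symm) h3)
      (by
        simp only [pom_eval]
        exact hw)
    simp only [pom_eval, pom_der] at h1
    rw [← hsg]
    exact e4_congr hπ hψ hk hΦ (hDy z hzD) hw (hdv z) h1
  simp only [hev] at hc
  exact hc

end GX
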