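import Pool.Agent.Lib.MP_f80667_ag.Lv.Ko.E4
import Pool.Agent.Lib.MP_f80667_ag.Lv.Ko.E1

/-! From the grid to all points. -/

open ZC BE PE CV IntermediateField

namespace GX

variable {F : Type} [Field F] {N d : ℕ} {ι : Type} {f : ι → MvPolynomial (Fin N) F} {K Ω : Type}
  [Field K] [CharZero K] [Field Ω] [Algebra K Ω] [Algebra F K] [Algebra F Ω]
  [IsScalarTower F K Ω] [IsAlgClosure K Ω] {L : Ld K Ω} {ψ : Prj K N d} {π : Ω} {k : ℕ}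
  {W : AddSubgroup ((Xf f).pt Ω →₀ ℤ)}
  {Φ : ℕ → (Fin (d + 1) → Ω) → Ω → (Fin (d + 1) → Ω) → (Xf f).pt Ω →₀ ℤ}

/-- Proof: `grid` for `rD L ψ`, `kq_arc`. -/
theorem kq_all (hπ : Uf L π) (hψ : Pj f L ψ) (hk : L.Rf ⊥ k) (hΦ : Vfn f L ψ π k W Φ)
    {i₀ : Fin (d + 1)} (S : Finset L.κ)
    (hS : (ψ.G.natDegree - 1) * L.p + (rD L ψ).totalDegree * L.p ≤ S.card)
    (h : ∀ y, (∀ i, y i ∈ S) → MvPolynomial.eval y (rD L ψ) ≠ 0 → Kq L ψ k W Φ i₀ y)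
    (y : Fin (d + 1) → L.κ) (hy : MvPolynomial.eval y (rD L ψ) ≠ 0) : Kq L ψ k W Φ i₀ y := by
  have : CharP L.κ L.p := L.char_κ
  have : IsAlgClosed Ω := IsAlgClosure.isAlgClosed K
  have : IsAlgClosed L.κ := L.κ_closed
  exact grid L.pp (rD L ψ) le_rfl i₀ (Kq L ψ k W Φ i₀)
    (fun a ha hd T hT hT' z hz hzD => kq_arc hπ hψ hk hΦ a ha hd T hT hT' hz hzD) S hS h y hy

end GX
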