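import Pool.Agent.Lib.MP_f80667_ag.Lv.Ko.A
import Pool.Agent.Lib.MP_f80667_ag.Lv.Tb

/-! The values `Tk`: rules modulo `Vl (s + 1)`. -/

open ZC BE PE CV IntermediateField

namespace GX

variable {F : Type} [Field F] {N d : ℕ} {ι : Type} {f : ι → MvPolynomial (Fin N) F} {K Ω : Type}
  [Field K] [CharZero K] [Field Ω] [Algebra K Ω] [Algebra F K] [Algebra F Ω]
  [IsScalarTower F K Ω] [IsAlgClosure K Ω] {L : Ld K Ω} {ψ : Prj K N d} {π : Ω} {k s : ℕ}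
  {W : AddSubgroup ((Xf f).pt Ω →₀ ℤ)}
  {n : ℕ} {c u u' : Fin (d + 1) → Ω} {w : Ω}

omit [CharZero K] [IsAlgClosure K Ω] in
private theorem kof1_iv (hπ : Uf L π) (hu : Iv L (L.Ur ⊥ n) u) (j : ℕ) :
    Iv L (L.Ur ⊥ n) (π ^ j • u) ∧ ∀ r, L.nm ((π ^ j • u) r) ≤ L.nm π ^ j := by
  have h1 : ∀ r, L.nm ((π ^ j • u) r) ≤ L.nm π ^ j := fun r => by
    rw [Pi.smul_apply, smul_eq_mul, L.mul, L.pow]
    exact mul_le_of_le_one_right (pow_nonneg hπ.pos.le j) (hu r).2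
  exact ⟨fun r => ⟨mul_mem (pow_mem (hπ.mem _) j) (hu r).1,
    (h1 r).trans (pow_le_one₀ hπ.pos.le hπ.lt.le)⟩, h1⟩

/-- Proof: `cyv_dr`, `vl_dr`. -/
theorem tk_vl (hπ : Uf L π) (hψ : Pj f L ψ) (hn : n ≠ 0) (g : Gp L ψ (L.Ur ⊥ n) c w)
    (hu : Iv L (L.Ur ⊥ n) u) (hs : s ≠ 0) : Tk f L ψ π s n c w u ∈ Vl f L π s := by
  obtain ⟨h1, h2⟩ := kof1_iv hπ hu s
  exact vl_dr s (cyv_dr hπ hψ ⟨n, hn, le_rfl⟩ g h1 hs h2)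

/-- Proof: `cyv_four`, `2 s ≥ s + 1` (`dr_mono`, `vl_anti`). -/
theorem tk_add (hπ : Uf L π) (hψ : Pj f L ψ) (h2 : 2 < L.p) (hn : n ≠ 0)
    (g : Gp L ψ (L.Ur ⊥ n) c w) (hu : Iv L (L.Ur ⊥ n) u) (hu' : Iv L (L.Ur ⊥ n) u')
    (hs : s ≠ 0) : Tk f L ψ π s n c w (u + u') - Tk f L ψ π s n c w u -
      Tk f L ψ π s n c w u' ∈ Vl f L π (s + 1) := by
  obtain ⟨h1, h3⟩ := kof1_iv hπ hu s
  obtain ⟨h1', h3'⟩ := kof1_iv hπ hu' s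
  have h4 := cyv_four hπ hψ h2 ⟨n, hn, le_rfl⟩ g h1 h1' hs h3 h3'
  rw [← smul_add] at h4
  exact vl_anti hπ (by omega : s + 1 ≤ 2 * s) h4

/-- Proof: `cyv_dr` with `s + 1`. -/
theorem tk_pi (hπ : Uf L π) (hψ : Pj f L ψ) (hn : n ≠ 0) (g : Gp L ψ (L.Ur ⊥ n) c w)
    (hu : Iv L (L.Ur ⊥ n) u) : Tk f L ψ π s n c w (π • u) ∈ Vl f L π (s + 1) := by
  obtain ⟨h1, h2⟩ := kof1_iv hπ hu (s + 1)
  have h3 := cyv_dr hπ hψ ⟨n, hn, le_rfl⟩ g h1 (Nat.succ_ne_zero s) h2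
  rw [pow_succ, ← smul_smul] at h3
  exact vl_dr (s + 1) h3

/-- Congruent `u`. Proof: `cyv_close` with `s + 1`. -/
theorem tk_congr (hπ : Uf L π) (hψ : Pj f L ψ) (hn : n ≠ 0) (g : Gp L ψ (L.Ur ⊥ n) c w)
    (hu : Iv L (L.Ur ⊥ n) u) (hu' : Iv L (L.Ur ⊥ n) u') (hs : s ≠ 0) :
    Tk f L ψ π s n c w (u + π • u') - Tk f L ψ π s n c w u ∈ Vl f L π (s + 1) := by
  obtain ⟨h1, h2⟩ := kof1_iv hπ hu s
  obtain ⟨h1', h2'⟩ := kof1_iv hπ hu' (s + 1)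
  rw [pow_succ, ← smul_smul] at h1' h2'
  have h3 : Iv L (L.Ur ⊥ n) (π ^ s • (u + π • u')) := by
    rw [smul_add]
    exact fun r => ⟨add_mem (h1 r).1 (h1' r).1, (L.add _ _).trans (max_le (h1 r).2 (h1' r).2)⟩
  have h4 : ∀ r, L.nm ((π ^ s • (u + π • u')) r - (π ^ s • u) r) ≤ L.nm π ^ (s + 1) := by
    intro r
    rw [smul_add, Pi.add_apply, add_sub_cancel_left]
    exact h2' r
  exact vl_dr (s + 1) (cyv_close hπ hψ ⟨n, hn, le_rfl⟩ g h1 h3 (Nat.succ_ne_zero s)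
    (fun r => (h2 r).trans_lt (hπ.pow_lt hs)) h4)

/-- **PAR.** Proof: `cyv_par` with `π a`, `π ^ s`. -/
theorem tk_par (hπ : Uf L π) (hψ : Pj f L ψ) (hn : n ≠ 0) (g : Gp L ψ (L.Ur ⊥ n) c w)
    (hu : Iv L (L.Ur ⊥ n) u) {a : Ω} (ha : a ∈ L.Ur ⊥ n) (ha1 : L.nm a ≤ 1) (hs : s ≠ 0) :
    Tk f L ψ π s n (c + π • (a • u)) (sht L ψ w (c + π • (a • u))) u -
      Tk f L ψ π s n c w u ∈ Vl f L π (s + 1) := by
  have h1 : L.nm (π * a) ≤ L.nm π ^ 1 := by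
    rw [L.mul, pow_one]
    exact mul_le_of_le_one_right hπ.pos.le ha1
  have h2 := cyv_par hπ hψ ⟨n, hn, le_rfl⟩ g (mul_mem (hπ.mem _) ha) (pow_mem (hπ.mem _) s) hu
    one_ne_zero hs h1 (L.pow π s).le
  rw [← smul_smul, add_comm 1 s] at h2
  exact h2

end GX
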