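import Pool.Agent.Lib.MP_f80667_ag.Lv.Ko.A
import Pool.Agent.Lib.MP_f80667_ag.Lv.Tc
import Pool.Agent.Lib.MP_f80667_ag.Lv.Td
import Pool.Agent.Lib.MP_f80667_ag.Lv.Kc

/-! The values `Tk`: the trace and the relations of the curves. -/

open ZC BE PE CV IntermediateField

namespace GX

variable {F : Type} [Field F] {N d : ℕ} {ι : Type} {f : ι → MvPolynomial (Fin N) F} {K Ω : Type}
  [Field K] [CharZero K] [Field Ω] [Algebra K Ω] [Algebra F K] [Algebra F Ω]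
  [IsScalarTower F K Ω] [IsAlgClosure K Ω] {L : Ld K Ω} {ψ : Prj K N d} {π : Ω} {k s : ℕ}
  {W : AddSubgroup ((Xf f).pt Ω →₀ ℤ)}
  {n : ℕ} {c u u' : Fin (d + 1) → Ω} {w : Ω}

/-- Proof: `cyv_norm` with `π ^ s b`; `Nm (π ^ s b) = π ^ s Nm b` (`π ∈ ⊥`; `Nm` is a sum of conjugates, `nm_rep`). -/
theorem tk_norm (hπ : Uf L π) (hψ : Pj f L ψ) {n' : ℕ} (hn : n ≠ 0) (hn' : n' ≠ 0)
    (h : n ∣ n') (g : Gp L ψ (L.Ur ⊥ n) c w) (hu : Iv L (L.Ur ⊥ n) u) {b : Ω}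
    (hb : b ∈ L.Ur ⊥ n') (hb1 : L.nm b ≤ 1) (hs : s ≠ 0) :
    Tk f L ψ π s n' c w (b • u) -
      Tk f L ψ π s n c w (Nm (L.Ur ⊥ n) (L.Ur ⊥ n') b • u) ∈ Vl f L π (s + 1) := by
  have hM : Um L (L.Ur ⊥ n) := ⟨n, hn, le_rfl⟩
  have hM' : Um L (L.Ur ⊥ n') := ⟨n', hn', le_rfl⟩
  have hle : L.Ur ⊥ n ≤ L.Ur ⊥ n' := Ld.ur_dvd ⊥ h
  have hfd' : FiniteDimensional K (L.Ur ⊥ n') := hM'.fd
  have h1 : L.nm (π ^ s * b) ≤ L.nm π ^ s := by
    rw [L.mul, L.pow]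
    exact mul_le_of_le_one_right (pow_nonneg (L.nonneg _) s) hb1
  have h2 := cyv_norm (f := f) hπ hψ hM hM' hle g (mul_mem (pow_mem (hπ.mem _) s) hb) hu hs h1
  have h3 : Nm (L.Ur ⊥ n) (L.Ur ⊥ n') (π ^ s * b) =
      π ^ s * Nm (L.Ur ⊥ n) (L.Ur ⊥ n') b := by
    obtain ⟨s', -, -, -, h4⟩ := nm_rep hle
    rw [h4 Ω, h4 Ω, Finset.mul_sum]
    refine Finset.sum_congr rfl fun γ _ => ?_
    obtain ⟨y, hy⟩ := IntermediateField.mem_bot.1 hπ.bot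
    change γ (π ^ s * b) = π ^ s * γ b
    rw [map_mul, map_pow, ← hy, γ.commutes]
  rw [h3, mul_smul, mul_smul] at h2
  exact vl_anti hπ (by omega : s + 1 ≤ 2 * s) h2

/-- Proof: `cyv_crv` with `T` = the pairs `(z, w)`, `z ∈ S`, `w ∈ rts` (`Finset.sigma`, `Finset.sum_sigma'`, `mem_rts`). -/
theorem tk_crv (hπ : Uf L π) (hψ : Pj f L ψ) (hn : n ≠ 0) {a : Fin (d + 1) → Polynomial Ω}
    (ha : Arc L (L.Ur ⊥ n) a) {ρ : ℕ} (hρ : ∀ i, (a i).natDegree ≤ ρ) {S : Finset Ω}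
    (hS : ∀ z ∈ S, z ∈ L.Ur ⊥ n ∧ L.nm z ≤ 1 ∧
      L.nm (MvPolynomial.aeval (fun r => (a r).eval z) ψ.D) = 1)
    (hS' : ∀ z ∈ S, ∀ z' ∈ S, z ≠ z' → L.nm (z - z') = 1) {j : ℕ} (hj : j * ρ < S.card) {τ : Ω}
    (hτ : τ ∈ L.Ur ⊥ n) (hτ' : L.nm τ ≤ 1)
    (hr : ∀ z ∈ S, ∀ w ∈ rts ψ (fun r => (a r).eval z), w ∈ L.Ur ⊥ n) (hs : s ≠ 0) :
    ∑ z ∈ S, ∑ w ∈ rts ψ (fun r => (a r).eval z), Tk f L ψ π s n (fun r => (a r).eval z) w
      (fun r => τ * w ^ j / (Polynomial.derivative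
        (∏ c ∈ S, (Polynomial.X - Polynomial.C c))).eval z *
          (Polynomial.derivative (a r)).eval z) ∈ Vl f L π (s + 1) := by
  classical
  have hM : Um L (L.Ur ⊥ n) := ⟨n, hn, le_rfl⟩
  let T : Finset (Ω × Ω) :=
    (S.sigma fun z => rts ψ fun r => (a r).eval z).map
      ⟨fun q : (_ : Ω) × Ω => (q.1, q.2), fun q q' h => by
        obtain ⟨q1, q2⟩ := q
        obtain ⟨q3, q4⟩ := q'
        obtain ⟨h1, h2⟩ := Prod.mk.inj h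
        change q1 = q3 at h1
        change q2 = q4 at h2
        rw [h1, h2]⟩
  have hT : ∀ q : Ω × Ω, q ∈ T ↔ q.1 ∈ S ∧ pe (fun r => (a r).eval q.1) q.2 ψ.G = 0 := by
    intro q
    constructor
    · intro hq
      obtain ⟨q', hq', rfl⟩ := Finset.mem_map.1 hq
      obtain ⟨h1, h2⟩ := Finset.mem_sigma.1 hq'
      exact ⟨h1, (mem_rts hψ).1 h2⟩
    · rintro ⟨h1, h2⟩
      exact Finset.mem_map.2 ⟨⟨q.1, q.2⟩, Finset.mem_sigma.2 ⟨h1, (mem_rts hψ).2 h2⟩, rfl⟩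
  have hT' : ∀ q ∈ T, q.2 ∈ L.Ur ⊥ n := by
    intro q hq
    obtain ⟨h1, h2⟩ := (hT q).1 hq
    exact hr _ h1 _ ((mem_rts hψ).2 h2)
  have h1 := cyv_crv (f := f) hπ hψ hM ha hρ hS hS' hj hτ hτ' hT hT' hs
  have h2 := vl_anti hπ (by omega : s + 1 ≤ 2 * s) h1
  rw [Finset.sum_map, Finset.sum_sigma] at h2
  have h3 : (∑ z ∈ S, ∑ w ∈ rts ψ (fun r => (a r).eval z), Tk f L ψ π s n
      (fun r => (a r).eval z) w (fun r => τ * w ^ j / (Polynomial.derivative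
        (∏ c ∈ S, (Polynomial.X - Polynomial.C c))).eval z *
          (Polynomial.derivative (a r)).eval z)) =
      ∑ z ∈ S, ∑ w ∈ rts ψ (fun r => (a r).eval z), cyv f L ψ (L.Ur ⊥ n)
        (fun r => (a r).eval z) w (fun r => π ^ s * (τ * w ^ j /
        (Polynomial.derivative (∏ c ∈ S, (Polynomial.X - Polynomial.C c))).eval z) *
          (Polynomial.derivative (a r)).eval z) := by
    refine Finset.sum_congr rfl fun z _ => Finset.sum_congr rfl fun w _ => ?_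
    unfold Tk
    have h4 : (π ^ s • fun r => τ * w ^ j / (Polynomial.derivative
        (∏ c ∈ S, (Polynomial.X - Polynomial.C c))).eval z *
          (Polynomial.derivative (a r)).eval z) = fun r => π ^ s * (τ * w ^ j /
        (Polynomial.derivative (∏ c ∈ S, (Polynomial.X - Polynomial.C c))).eval z) *
          (Polynomial.derivative (a r)).eval z := by
      funext r
      rw [Pi.smul_apply, smul_eq_mul, mul_assoc]
    rw [h4]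
  rw [h3]
  exact h2

end GX
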