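import Pool.Agent.Lib.MP_f80667_ag.Lv.Ko.F1

/-! The values `Gk`: a bilinear form modulo `Vl (s + 1)`. -/

open ZC BE PE CV IntermediateField

namespace GX

variable {F : Type} [Field F] {N d : ℕ} {ι : Type} {f : ι → MvPolynomial (Fin N) F} {K Ω : Type}
  [Field K] [CharZero K] [Field Ω] [Algebra K Ω] [Algebra F K] [Algebra F Ω]
  [IsScalarTower F K Ω] [IsAlgClosure K Ω] {L : Ld K Ω} {ψ : Prj K N d} {π : Ω} {k s : ℕ}
  {W : AddSubgroup ((Xf f).pt Ω →₀ ℤ)}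
  {n : ℕ} {c u u' x x' : Fin (d + 1) → Ω} {w : Ω}

omit [CharZero K] [IsAlgClosure K Ω] in
private theorem f2_smul {M : IntermediateField K Ω} {y : Fin (d + 1) → Ω} (hy : Iv L M y) {a : Ω}
    (ha : a ∈ M) (ha1 : L.nm a ≤ 1) : Iv L M (a • y) := fun i => by
  refine ⟨?_, ?_⟩
  · rw [Pi.smul_apply, smul_eq_mul]
    exact mul_mem ha (hy i).1
  · rw [Pi.smul_apply, smul_eq_mul, L.mul]
    exact mul_le_one₀ ha1 (L.nonneg _) (hy i).2

omit [CharZero K] [IsAlgClosure K Ω] in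
private theorem f2_neg {M : IntermediateField K Ω} {y : Fin (d + 1) → Ω} (hy : Iv L M y) :
    Iv L M (-y) := fun i => by
  rw [Pi.neg_apply, L.neg]
  exact ⟨neg_mem (hy i).1, (hy i).2⟩

omit [CharZero K] [IsAlgClosure K Ω] in
private theorem f2_add {M : IntermediateField K Ω} {y y' : Fin (d + 1) → Ω} (hy : Iv L M y)
    (hy' : Iv L M y') : Iv L M (y + y') := fun i =>
  ⟨add_mem (hy i).1 (hy' i).1, (L.add _ _).trans (max_le (hy i).2 (hy' i).2)⟩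

omit [CharZero K] [IsAlgClosure K Ω] in
private theorem f2_pi (hπ : Uf L π) {M : IntermediateField K Ω} {y : Fin (d + 1) → Ω}
    (hy : Iv L M y) : Iv L M (π • y) ∧ ∀ r, L.nm ((π • y) r) ≤ L.nm π := by
  refine ⟨f2_smul hy (hπ.mem M) hπ.lt.le, fun r => ?_⟩
  rw [Pi.smul_apply, smul_eq_mul, L.mul]
  exact mul_le_of_le_one_right (L.nonneg _) (hy r).2

private theorem f2_sh (hπ : Uf L π) (hψ : Pj f L ψ) {M : IntermediateField K Ω}
    (g : Gp L ψ M c w) {y : Fin (d + 1) → Ω} (hy : Iv L M y) :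
    Gp L ψ M (c + π • y) (sht L ψ w (c + π • y)) :=
  (g.sh hψ (f2_pi hπ hy).1 hπ.lt (f2_pi hπ hy).2).1

/-- **The swap.** Proof: modulo `Vl (s + 1)`, `Q' = (c + π a x, sht)`: `T (Q'; u) = T (Q'; u + x) - T (Q'; x)` (`tk_add`), `T (Q'; x) = T (c; x)` (`tk_par`), `T (Q'; u + x) = T (c - π a u; u + x)` (`tk_par` with `- a`, `sht_sht`)
`= T (c - π a u; u) + T (c - π a u; x)` (`tk_add`), `T (c - π a u; u) = T (c; u)` (`tk_par`). -/
theorem gk_swap (hπ : Uf L π) (hψ : Pj f L ψ) (h2 : 2 < L.p) (hn : n ≠ 0)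
    (g : Gp L ψ (L.Ur ⊥ n) c w) (hu : Iv L (L.Ur ⊥ n) u) (hx : Iv L (L.Ur ⊥ n) x) {a : Ω}
    (ha : a ∈ L.Ur ⊥ n) (ha1 : L.nm a ≤ 1) (hs : s ≠ 0) :
    Gk f L ψ π s (a • x) n c w u - Gk f L ψ π s (-(a • u)) n c w x ∈ Vl f L π (s + 1) := by
  have hax := f2_smul hx ha ha1
  have hau := f2_neg (f2_smul hu ha ha1)
  have hux := f2_add hu hx
  have ha' : -a ∈ L.Ur ⊥ n := neg_mem ha
  have ha1' : L.nm (-a) ≤ 1 := by
    rw [L.neg]
    exact ha1
  have g1 := f2_sh hπ hψ g hax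
  have g2 := f2_sh hπ hψ g hau
  have e1 : c + π • -(a • u) = c + π • (-a • u) := by rw [neg_smul]
  have e2 : c + π • (a • x) + π • (-a • (u + x)) = c + π • -(a • u) := by
    funext i
    simp only [Pi.add_apply, Pi.smul_apply, Pi.neg_apply, smul_eq_mul]
    ring
  have e3 : sht L ψ (sht L ψ w (c + π • (a • x))) (c + π • -(a • u)) =
      sht L ψ w (c + π • -(a • u)) :=
    sht_sht hψ g (f2_pi hπ hax).1 (f2_pi hπ hau).1
      (fun r => ((f2_pi hπ hax).2 r).trans_lt hπ.lt)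
      (fun r => ((f2_pi hπ hau).2 r).trans_lt hπ.lt)
  have A1 := tk_add hπ hψ h2 hn g1 hu hx hs
  have A2 := tk_add hπ hψ h2 hn g2 hu hx hs
  have P1 := tk_par hπ hψ hn g hx ha ha1 hs
  have P2 := tk_par hπ hψ hn g1 hux ha' ha1' hs
  rw [e2, e3] at P2
  have P3 := tk_par hπ hψ hn g hu ha' ha1' hs
  rw [← e1] at P3
  have h := sub_mem (sub_mem (sub_mem (add_mem A2 P3) P2) P1) A1
  have e : Gk f L ψ π s (a • x) n c w u - Gk f L ψ π s (-(a • u)) n c w x =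
      (Tk f L ψ π s n (c + π • -(a • u)) (sht L ψ w (c + π • -(a • u))) (u + x) -
        Tk f L ψ π s n (c + π • -(a • u)) (sht L ψ w (c + π • -(a • u))) u -
        Tk f L ψ π s n (c + π • -(a • u)) (sht L ψ w (c + π • -(a • u))) x +
      (Tk f L ψ π s n (c + π • -(a • u)) (sht L ψ w (c + π • -(a • u))) u -
        Tk f L ψ π s n c w u)) -
      (Tk f L ψ π s n (c + π • -(a • u)) (sht L ψ w (c + π • -(a • u))) (u + x) -
        Tk f L ψ π s n (c + π • (a • x)) (sht L ψ w (c + π • (a • x))) (u + x)) -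
      (Tk f L ψ π s n (c + π • (a • x)) (sht L ψ w (c + π • (a • x))) x -
        Tk f L ψ π s n c w x) -
      (Tk f L ψ π s n (c + π • (a • x)) (sht L ψ w (c + π • (a • x))) (u + x) -
        Tk f L ψ π s n (c + π • (a • x)) (sht L ψ w (c + π • (a • x))) u -
        Tk f L ψ π s n (c + π • (a • x)) (sht L ψ w (c + π • (a • x))) x) := by
    unfold Gk
    abel
  rw [e]
  exact h

/-- Proof: `tk_add` at both points. -/
theorem gk_add (hπ : Uf L π) (hψ : Pj f L ψ) (h2 : 2 < L.p) (hn : n ≠ 0)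
    (g : Gp L ψ (L.Ur ⊥ n) c w) (hu : Iv L (L.Ur ⊥ n) u) (hu' : Iv L (L.Ur ⊥ n) u')
    (hx : Iv L (L.Ur ⊥ n) x) (hs : s ≠ 0) :
    Gk f L ψ π s x n c w (u + u') - Gk f L ψ π s x n c w u - Gk f L ψ π s x n c w u' ∈
      Vl f L π (s + 1) := by
  have h := sub_mem (tk_add hπ hψ h2 hn (f2_sh hπ hψ g hx) hu hu' hs)
    (tk_add hπ hψ h2 hn g hu hu' hs)
  have e : Gk f L ψ π s x n c w (u + u') - Gk f L ψ π s x n c w u - Gk f L ψ π s x n c w u' =
      (Tk f L ψ π s n (c + π • x) (sht L ψ w (c + π • x)) (u + u') -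
        Tk f L ψ π s n (c + π • x) (sht L ψ w (c + π • x)) u -
        Tk f L ψ π s n (c + π • x) (sht L ψ w (c + π • x)) u') -
      (Tk f L ψ π s n c w (u + u') - Tk f L ψ π s n c w u - Tk f L ψ π s n c w u') := by
    unfold Gk
    abel
  rw [e]
  exact h

/-- Proof: `gk_swap` with `a = 1` three times, `gk_add`. -/
theorem gk_addl (hπ : Uf L π) (hψ : Pj f L ψ) (h2 : 2 < L.p) (hn : n ≠ 0)
    (g : Gp L ψ (L.Ur ⊥ n) c w) (hu : Iv L (L.Ur ⊥ n) u) (hx : Iv L (L.Ur ⊥ n) x)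
    (hx' : Iv L (L.Ur ⊥ n) x') (hs : s ≠ 0) :
    Gk f L ψ π s (x + x') n c w u - Gk f L ψ π s x n c w u - Gk f L ψ π s x' n c w u ∈
      Vl f L π (s + 1) := by
  have h1 : L.nm (1 : Ω) ≤ 1 := le_of_eq L.one
  have hm : (1 : Ω) ∈ L.Ur ⊥ n := one_mem _
  have s1 := gk_swap hπ hψ h2 hn g hu (f2_add hx hx') hm h1 hs
  have s2 := gk_swap hπ hψ h2 hn g hu hx hm h1 hs
  have s3 := gk_swap hπ hψ h2 hn g hu hx' hm h1 hs
  rw [one_smul, one_smul] at s1 s2 s3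
  have s4 := gk_add hπ hψ h2 hn g hx hx' (f2_neg hu) hs
  have h := sub_mem (sub_mem (add_mem s1 s4) s2) s3
  have e : Gk f L ψ π s (x + x') n c w u - Gk f L ψ π s x n c w u - Gk f L ψ π s x' n c w u =
      (Gk f L ψ π s (x + x') n c w u - Gk f L ψ π s (-u) n c w (x + x')) +
      (Gk f L ψ π s (-u) n c w (x + x') - Gk f L ψ π s (-u) n c w x -
        Gk f L ψ π s (-u) n c w x') -
      (Gk f L ψ π s x n c w u - Gk f L ψ π s (-u) n c w x) -
      (Gk f L ψ π s x' n c w u - Gk f L ψ π s (-u) n c w x') := by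
    abel
  rw [e]
  exact h

/-- Balanced. Proof: `gk_swap` with `a` and with `1` for `a • u`. -/
theorem gk_bal (hπ : Uf L π) (hψ : Pj f L ψ) (h2 : 2 < L.p) (hn : n ≠ 0)
    (g : Gp L ψ (L.Ur ⊥ n) c w) (hu : Iv L (L.Ur ⊥ n) u) (hx : Iv L (L.Ur ⊥ n) x) {a : Ω}
    (ha : a ∈ L.Ur ⊥ n) (ha1 : L.nm a ≤ 1) (hs : s ≠ 0) :
    Gk f L ψ π s (a • x) n c w u - Gk f L ψ π s x n c w (a • u) ∈ Vl f L π (s + 1) := by
  have h1 : L.nm (1 : Ω) ≤ 1 := le_of_eq L.one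
  have hm : (1 : Ω) ∈ L.Ur ⊥ n := one_mem _
  have s1 := gk_swap hπ hψ h2 hn g hu hx ha ha1 hs
  have s2 := gk_swap hπ hψ h2 hn g (f2_smul hu ha ha1) hx hm h1 hs
  rw [one_smul, one_smul] at s2
  have h := sub_mem s1 s2
  rwa [sub_sub_sub_cancel_right] at h

end GX
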