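import Pool.Agent.Lib.MP_f80667_ag.Lv.Ko.F2

/-! The values `Gk` depend on `c` only modulo `π`. -/

open ZC BE PE CV IntermediateField

namespace GX

variable {F : Type} [Field F] {N d : ℕ} {ι : Type} {f : ι → MvPolynomial (Fin N) F} {K Ω : Type}
  [Field K] [CharZero K] [Field Ω] [Algebra K Ω] [Algebra F K] [Algebra F Ω]
  [IsScalarTower F K Ω] [IsAlgClosure K Ω] {L : Ld K Ω} {ψ : Prj K N d} {π : Ω} {k s : ℕ}
  {W : AddSubgroup ((Xf f).pt Ω →₀ ℤ)}
  {n : ℕ} {c u u' x x' : Fin (d + 1) → Ω} {w : Ω}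

omit [CharZero K] [IsAlgClosure K Ω] in
private theorem fb_zero (M : IntermediateField K Ω) : Iv L M (0 : Fin (d + 1) → Ω) := fun _ => by
  rw [Pi.zero_apply, L.zero]
  exact ⟨zero_mem M, zero_le_one⟩

omit [CharZero K] [IsAlgClosure K Ω] in
private theorem fb_add {M : IntermediateField K Ω} {a b : Fin (d + 1) → Ω} (ha : Iv L M a)
    (hb : Iv L M b) : Iv L M (a + b) := fun i =>
  ⟨add_mem (ha i).1 (hb i).1, (L.add _ _).trans (max_le (ha i).2 (hb i).2)⟩

omit [CharZero K] [IsAlgClosure K Ω] in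
private theorem fb_smul {M : IntermediateField K Ω} {a : Ω} {b : Fin (d + 1) → Ω} (ha : a ∈ M)
    (ha1 : L.nm a ≤ 1) (hb : Iv L M b) : Iv L M (a • b) := fun i => by
  rw [Pi.smul_apply, smul_eq_mul, L.mul]
  exact ⟨mul_mem ha (hb i).1, mul_le_one₀ ha1 (L.nonneg _) (hb i).2⟩

omit [CharZero K] [IsAlgClosure K Ω] in
private theorem fb_single (M : IntermediateField K Ω) (t : Fin (d + 1)) :
    Iv L M (Pi.single t 1 : Fin (d + 1) → Ω) := fun i => by
  by_cases h : i = t
  · subst h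
    rw [Pi.single_eq_same, L.one]
    exact ⟨one_mem M, le_rfl⟩
  · rw [Pi.single_eq_of_ne h, L.zero]
    exact ⟨zero_mem M, zero_le_one⟩

omit [CharZero K] [IsAlgClosure K Ω] in
private theorem fb_sum {M : IntermediateField K Ω} {x : Fin (d + 1) → Ω} (hx : Iv L M x)
    (S : Finset (Fin (d + 1))) :
    Iv L M (∑ t ∈ S, x t • (Pi.single t 1 : Fin (d + 1) → Ω)) := by
  classical
  induction S using Finset.induction_on with
  | empty =>
    rw [Finset.sum_empty]
    exact fb_zero M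
  | insert t S ht ih =>
    rw [Finset.sum_insert ht]
    exact fb_add (fb_smul (hx t).1 (hx t).2 (fb_single M t)) ih

/-- Proof: `Gk (h + x) c = Gk x (c + π h) + Gk h c` (`sht_sht`), `gk_addl`. -/
theorem gk_near (hπ : Uf L π) (hψ : Pj f L ψ) (h2 : 2 < L.p) (hn : n ≠ 0)
    (g : Gp L ψ (L.Ur ⊥ n) c w) (hu : Iv L (L.Ur ⊥ n) u) (hx : Iv L (L.Ur ⊥ n) x)
    {h : Fin (d + 1) → Ω} (hh : Iv L (L.Ur ⊥ n) h) (hs : s ≠ 0) :
    Gk f L ψ π s x n (c + π • h) (sht L ψ w (c + π • h)) u - Gk f L ψ π s x n c w u ∈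
      Vl f L π (s + 1) := by
  have hπM : π ∈ L.Ur ⊥ n := bot_le (a := L.Ur ⊥ n) hπ.bot
  have hlt : ∀ {v : Fin (d + 1) → Ω}, Iv L (L.Ur ⊥ n) v → ∀ r, L.nm ((π • v) r) < 1 := by
    intro v hv r
    rw [Pi.smul_apply, smul_eq_mul, L.mul]
    exact (mul_le_of_le_one_right (L.nonneg _) (hv r).2).trans_lt hπ.lt
  have hhx := fb_add hh hx
  have h3 := sht_sht hψ g (fb_smul hπM hπ.lt.le hh) (fb_smul hπM hπ.lt.le hhx) (hlt hh) (hlt hhx)
  have h4 : c + π • h + π • x = c + π • (h + x) := by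
    rw [smul_add, add_assoc]
  have h5 : Gk f L ψ π s x n (c + π • h) (sht L ψ w (c + π • h)) u - Gk f L ψ π s x n c w u =
      Gk f L ψ π s (h + x) n c w u - Gk f L ψ π s h n c w u - Gk f L ψ π s x n c w u := by
    unfold Gk
    rw [h4, h3]
    abel
  rw [h5]
  exact gk_addl hπ hψ h2 hn g hu hh hx hs

/-- The unit vectors are enough. Proof: `x = ∑ x t • e_t`, `gk_addl` (induction on the finset), `gk_bal`: `Gk (x t • e_t) u` is `Gk e_t (x t • u)`, and this is in `W`: `u = ∑ u r • e_r`, `gk_add`, `Ko`. -/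
theorem gk_all (hπ : Uf L π) (hψ : Pj f L ψ) (h2 : 2 < L.p) (hW : Vl f L π (s + 1) ≤ W)
    (hn : n ≠ 0) (hkn : k ∣ n) (g : Gp L ψ (L.Ur ⊥ n) c w) (hu : Iv L (L.Ur ⊥ n) u)
    (hx : Iv L (L.Ur ⊥ n) x) (hs : s ≠ 0)
    (h : ∀ t r, Ko L ψ k W (Gk f L ψ π s (Pi.single t 1)) c w (Pi.single r 1)) :
    Gk f L ψ π s x n c w u ∈ W := by
  classical
  have hz := fb_zero (L := L) (d := d) (L.Ur ⊥ n)
  -- the values at the unit vectors `x`
  have key : ∀ (t : Fin (d + 1)) (v : Fin (d + 1) → Ω), Iv L (L.Ur ⊥ n) v →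
      Gk f L ψ π s (Pi.single t 1) n c w v ∈ W := by
    intro t v hv
    have ht := fb_single (L := L) (L.Ur ⊥ n) t
    have hS : ∀ S : Finset (Fin (d + 1)), Gk f L ψ π s (Pi.single t 1) n c w
        (∑ r ∈ S, v r • (Pi.single r 1 : Fin (d + 1) → Ω)) ∈ W := by
      intro S
      induction S using Finset.induction_on with
      | empty =>
        rw [Finset.sum_empty]
        have h3 := hW (gk_add hπ hψ h2 hn g hz hz ht hs)
        rw [add_zero, sub_self, zero_sub] at h3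
        exact neg_mem_iff.1 h3
      | insert r S hr ih =>
        rw [Finset.sum_insert hr]
        have hr1 := fb_single (L := L) (L.Ur ⊥ n) r
        have h3 := hW (gk_add hπ hψ h2 hn g (fb_smul (hv r).1 (hv r).2 hr1) (fb_sum hv S) ht hs)
        have h4 := h t r n hn hkn g hr1 (v r) (hv r).1 (hv r).2
        have h5 := add_mem (add_mem h3 ih) h4
        rwa [sub_add_cancel, sub_add_cancel] at h5
    have h3 := hS Finset.univ
    have h4 : ∑ r, v r • (Pi.single r 1 : Fin (d + 1) → Ω) = v := by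
      funext i
      rw [Finset.sum_apply, Finset.sum_eq_single i]
      · rw [Pi.smul_apply, Pi.single_eq_same, smul_eq_mul, mul_one]
      · intro r _ hr
        rw [Pi.smul_apply, Pi.single_eq_of_ne hr.symm, smul_zero]
      · intro hi
        exact absurd (Finset.mem_univ i) hi
    rwa [h4] at h3
  have hS : ∀ S : Finset (Fin (d + 1)), Gk f L ψ π s
      (∑ t ∈ S, x t • (Pi.single t 1 : Fin (d + 1) → Ω)) n c w u ∈ W := by
    intro S
    induction S using Finset.induction_on with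
    | empty =>
      rw [Finset.sum_empty]
      have h3 := hW (gk_addl hπ hψ h2 hn g hu hz hz hs)
      rw [add_zero, sub_self, zero_sub] at h3
      exact neg_mem_iff.1 h3
    | insert t S ht ih =>
      rw [Finset.sum_insert ht]
      have ht1 := fb_single (L := L) (L.Ur ⊥ n) t
      have h3 := hW (gk_addl hπ hψ h2 hn g hu (fb_smul (hx t).1 (hx t).2 ht1) (fb_sum hx S) hs)
      have h4 := hW (gk_bal hπ hψ h2 hn g hu ht1 (hx t).1 (hx t).2 hs)
      have h5 := key t (x t • u) (fb_smul (hx t).1 (hx t).2 hu)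
      have h6 := add_mem h4 h5
      rw [sub_add_cancel] at h6
      have h7 := add_mem (add_mem h3 ih) h6
      rwa [sub_add_cancel, sub_add_cancel] at h7
  have h3 := hS Finset.univ
  have h4 : ∑ t, x t • (Pi.single t 1 : Fin (d + 1) → Ω) = x := by
    funext i
    rw [Finset.sum_apply, Finset.sum_eq_single i]
    · rw [Pi.smul_apply, Pi.single_eq_same, smul_eq_mul, mul_one]
    · intro r _ hr
      rw [Pi.smul_apply, Pi.single_eq_of_ne hr.symm, smul_zero]
    · intro hi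
      exact absurd (Finset.mem_univ i) hi
  rwa [h4] at h3

end GX
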