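import Pool.Agent.Lib.MP_f80667_ag.Lv.Ko.F1
import Pool.Agent.Lib.MP_f80667_ag.Lv.Ko.F1b
import Pool.Agent.Lib.MP_f80667_ag.Lv.Kc1

/-! The relations of the curves for `Gk`. -/

open ZC BE PE CV IntermediateField

namespace GX

variable {F : Type} [Field F] {N d : ℕ} {ι : Type} {f : ι → MvPolynomial (Fin N) F} {K Ω : Type}
  [Field K] [CharZero K] [Field Ω] [Algebra K Ω] [Algebra F K] [Algebra F Ω]
  [IsScalarTower F K Ω] [IsAlgClosure K Ω] {L : Ld K Ω} {ψ : Prj K N d} {π : Ω} {k s : ℕ}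
  {W : AddSubgroup ((Xf f).pt Ω →₀ ℤ)}
  {n : ℕ} {c u u' x x' : Fin (d + 1) → Ω} {w : Ω}

private theorem f3_ev {M : IntermediateField K Ω} {q : Polynomial Ω}
    (hq : ∀ j, q.coeff j ∈ M ∧ L.nm (q.coeff j) ≤ 1) {z : Ω} (hz : z ∈ M) (hz1 : L.nm z ≤ 1) :
    q.eval z ∈ M ∧ L.nm (q.eval z) ≤ 1 := by
  rw [Polynomial.eval_eq_sum_range]
  refine ⟨sum_mem fun i _ => mul_mem (hq i).1 (pow_mem hz i),
    L.sum_le _ _ zero_le_one fun i _ => ?_⟩
  rw [L.mul, L.pow]
  exact mul_le_one₀ (hq i).2 (pow_nonneg (L.nonneg _) _) (pow_le_one₀ (L.nonneg _) hz1)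

private theorem f3_dv {M : IntermediateField K Ω} {q : Polynomial Ω}
    (hq : ∀ j, q.coeff j ∈ M ∧ L.nm (q.coeff j) ≤ 1) (j : ℕ) :
    (Polynomial.derivative q).coeff j ∈ M ∧ L.nm ((Polynomial.derivative q).coeff j) ≤ 1 := by
  rw [Polynomial.coeff_derivative, L.mul]
  refine ⟨mul_mem (hq _).1 (add_mem (_root_.natCast_mem M j) (one_mem M)), ?_⟩
  refine mul_le_one₀ (hq _).2 (L.nonneg _) ((L.add _ _).trans (max_le (L.nat_le j) L.one.le))

private theorem f3_prod {S : Finset Ω} {g : Ω → Ω} (h : ∀ c ∈ S, L.nm (g c) = 1) :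
    L.nm (∏ c ∈ S, g c) = 1 := by
  classical
  induction S using Finset.induction_on with
  | empty => rw [Finset.prod_empty, L.one]
  | insert a S ha ih =>
    rw [Finset.prod_insert ha, L.mul, h a (Finset.mem_insert_self _ _),
      ih fun c hc => h c (Finset.mem_insert_of_mem hc), one_mul]

private theorem f3_D {M : IntermediateField K Ω} {S : Finset Ω} (hS : ∀ z ∈ S, z ∈ M)
    (hS' : ∀ z ∈ S, ∀ z' ∈ S, z ≠ z' → L.nm (z - z') = 1) {z : Ω} (hz : z ∈ S) :
    (Polynomial.derivative (∏ c ∈ S, (Polynomial.X - Polynomial.C c))).eval z ∈ M ∧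
      L.nm ((Polynomial.derivative (∏ c ∈ S, (Polynomial.X - Polynomial.C c))).eval z) = 1 := by
  classical
  have h1 := Lagrange.eval_nodal_derivative_eval_node_eq (s := S) (v := (id : Ω → Ω)) hz
  rw [Lagrange.eval_nodal] at h1
  have h2 : (Polynomial.derivative (∏ c ∈ S, (Polynomial.X - Polynomial.C c))).eval z =
      ∏ c ∈ S.erase z, (z - c) := h1
  rw [h2]
  refine ⟨prod_mem fun c hc => sub_mem (hS z hz) (hS c (Finset.mem_of_mem_erase hc)),
    f3_prod fun c hc => hS' z hz c (Finset.mem_of_mem_erase hc) (Finset.ne_of_mem_erase hc).symm⟩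

private theorem f3_pow {w w' : Ω} (hw : L.nm w ≤ 1) (hw' : L.nm w' ≤ 1) (j : ℕ) :
    L.nm (w ^ j - w' ^ j) ≤ L.nm (w - w') := by
  induction j with
  | zero =>
    rw [pow_zero, pow_zero, sub_self, L.zero]
    exact L.nonneg _
  | succ i ih =>
    have h1 : w ^ (i + 1) - w' ^ (i + 1) = w * (w ^ i - w' ^ i) + (w - w') * w' ^ i := by ring
    rw [h1]
    refine (L.add _ _).trans (max_le ?_ ?_)
    · rw [L.mul]
      exact (mul_le_of_le_one_left (L.nonneg _) hw).trans ih
    · rw [L.mul, L.pow]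
      exact mul_le_of_le_one_right (L.nonneg _) (pow_le_one₀ (L.nonneg _) hw')

/-- The relations of the curves for `Gk`. Proof: `tk_crv` for the arcs `a + C (π x)` and `a` (same derivative, same nodes: `Pj.D_close`); `rts_sht`: the sum over the roots over `a (z) + π x` is the sum over the roots `w` over `a (z)` of the terms at `sht L ψ w (a (z) + π x)`; this root is
congruent to `w` modulo `π` (`Gp.sh`), so `(sht ..) ^ j` may be replaced by `w ^ j` (`tk_congr`: the displacements differ by `π` times an integral vector; `um_lt`). -/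
theorem gk_crv (hπ : Uf L π) (hψ : Pj f L ψ) (hn : n ≠ 0) (hx : Iv L (L.Ur ⊥ n) x)
    {a : Fin (d + 1) → Polynomial Ω} (ha : Arc L (L.Ur ⊥ n) a) {ρ : ℕ}
    (hρ : ∀ i, (a i).natDegree ≤ ρ) {S : Finset Ω}
    (hS : ∀ z ∈ S, z ∈ L.Ur ⊥ n ∧ L.nm z ≤ 1 ∧
      L.nm (MvPolynomial.aeval (fun r => (a r).eval z) ψ.D) = 1)
    (hS' : ∀ z ∈ S, ∀ z' ∈ S, z ≠ z' → L.nm (z - z') = 1) {j : ℕ} (hj : j * ρ < S.card) {τ : Ω}
    (hτ : τ ∈ L.Ur ⊥ n) (hτ' : L.nm τ ≤ 1)
    (hr : ∀ z ∈ S, ∀ w ∈ rts ψ (fun r => (a r).eval z), w ∈ L.Ur ⊥ n) (hs : s ≠ 0) :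
    ∑ z ∈ S, ∑ w ∈ rts ψ (fun r => (a r).eval z), Gk f L ψ π s x n (fun r => (a r).eval z) w
      (fun r => τ * w ^ j / (Polynomial.derivative
        (∏ c ∈ S, (Polynomial.X - Polynomial.C c))).eval z *
          (Polynomial.derivative (a r)).eval z) ∈ Vl f L π (s + 1) := by
  classical
  have hcz : ∀ z ∈ S, Iv L (L.Ur ⊥ n) (fun r => (a r).eval z) := fun z hz r =>
    f3_ev (ha r) (hS z hz).1 (hS z hz).2.1
  have hh : Iv L (L.Ur ⊥ n) (π • x) := fun r =>
    ⟨mul_mem (hπ.mem _) (hx r).1, by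
      rw [Pi.smul_apply, smul_eq_mul, L.mul]
      exact mul_le_one₀ hπ.lt.le (L.nonneg _) (hx r).2⟩
  have hhπ : ∀ r, L.nm ((π • x) r) ≤ L.nm π := fun r => by
    rw [Pi.smul_apply, smul_eq_mul, L.mul]
    exact mul_le_of_le_one_right (L.nonneg _) (hx r).2
  have hh1 : ∀ r, L.nm ((π • x) r) < 1 := fun r => (hhπ r).trans_lt hπ.lt
  have hcz' : ∀ z ∈ S, Iv L (L.Ur ⊥ n) ((fun r => (a r).eval z) + π • x) := fun z hz r =>
    ⟨add_mem (hcz z hz r).1 (hh r).1, (L.add _ _).trans (max_le (hcz z hz r).2 (hh r).2)⟩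
  have hD' : ∀ z ∈ S, L.nm (MvPolynomial.aeval ((fun r => (a r).eval z) + π • x) ψ.D) = 1 :=
    fun z hz => hψ.D_close (fun r => (hcz z hz r).2) (fun r => (hcz' z hz r).2) (fun r => by
      rw [Pi.add_apply, sub_add_cancel_left, L.neg]
      exact hh1 r) (hS z hz).2.2
  have hg : ∀ z ∈ S, ∀ w ∈ rts ψ (fun r => (a r).eval z),
      Gp L ψ (L.Ur ⊥ n) (fun r => (a r).eval z) w := fun z hz w hw =>
    ⟨hcz z hz, hr z hz w hw, rts_le hψ (fun r => (hcz z hz r).2) hw, (mem_rts hψ).1 hw,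
      (hS z hz).2.2⟩
  have hg' : ∀ z ∈ S, ∀ w ∈ rts ψ (fun r => (a r).eval z),
      Gp L ψ (L.Ur ⊥ n) ((fun r => (a r).eval z) + π • x)
        (sht L ψ w ((fun r => (a r).eval z) + π • x)) ∧
      L.nm (sht L ψ w ((fun r => (a r).eval z) + π • x) - w) ≤ L.nm π := fun z hz w hw =>
    (hg z hz w hw).sh hψ hh hπ.lt hhπ
  have hr' : ∀ z ∈ S, ∀ w ∈ rts ψ ((fun r => (a r).eval z) + π • x), w ∈ L.Ur ⊥ n := by
    intro z hz
    have h1 := rts_sht hψ hn (hcz z hz) (hS z hz).2.2 hh hh1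
      (fun w => if w ∈ L.Ur ⊥ n then (0 : ℕ) else 1)
    have h2 : ∑ w ∈ rts ψ (fun r => (a r).eval z),
        (fun w => if w ∈ L.Ur ⊥ n then (0 : ℕ) else 1)
          (sht L ψ w ((fun r => (a r).eval z) + π • x)) = 0 :=
      Finset.sum_eq_zero fun w hw => if_pos (hg' z hz w hw).1.mem
    rw [h2, Finset.sum_eq_zero_iff] at h1
    intro w hw
    by_contra h3
    have h4 := h1 w hw
    rw [if_neg h3] at h4
    exact one_ne_zero h4
  have e1 : ∀ z, (fun r => (a r + Polynomial.C (π * x r)).eval z) =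
      (fun r => (a r).eval z) + π • x := by
    intro z
    funext r
    rw [Polynomial.eval_add, Polynomial.eval_C]
    rfl
  have e2 : ∀ r, Polynomial.derivative (a r + Polynomial.C (π * x r)) =
      Polynomial.derivative (a r) := by
    intro r
    rw [Polynomial.derivative_add, Polynomial.derivative_C, add_zero]
  have ha' : Arc L (L.Ur ⊥ n) (fun r => a r + Polynomial.C (π * x r)) := by
    intro i m
    rw [Polynomial.coeff_add, Polynomial.coeff_C]
    split_ifs
    · exact ⟨add_mem (ha i m).1 (hh i).1, (L.add _ _).trans (max_le (ha i m).2 (hh i).2)⟩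
    · rw [add_zero]
      exact ha i m
  have h1 := tk_crv (f := f) (s := s) hπ hψ hn ha hρ hS hS' hj hτ hτ' hr hs
  have h2 := tk_crv (f := f) (s := s) hπ hψ hn ha'
    (fun i => by rw [Polynomial.natDegree_add_C]; exact hρ i)
    (S := S) (fun z hz => ⟨(hS z hz).1, (hS z hz).2.1, by rw [e1]; exact hD' z hz⟩) hS' hj hτ hτ'
    (fun z hz => by rw [e1]; exact hr' z hz) hs
  simp only [e1, e2] at h2
  rw [Finset.sum_congr rfl fun z hz => rts_sht hψ hn (hcz z hz) (hS z hz).2.2 hh hh1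
    (fun w => Tk f L ψ π s n ((fun r => (a r).eval z) + π • x) w
      (fun r => τ * w ^ j / (Polynomial.derivative
        (∏ c ∈ S, (Polynomial.X - Polynomial.C c))).eval z *
          (Polynomial.derivative (a r)).eval z))] at h2
  have h3 : ∑ z ∈ S, ∑ w ∈ rts ψ (fun r => (a r).eval z),
      (Tk f L ψ π s n ((fun r => (a r).eval z) + π • x)
        (sht L ψ w ((fun r => (a r).eval z) + π • x))
        (fun r => τ * w ^ j / (Polynomial.derivative
          (∏ c ∈ S, (Polynomial.X - Polynomial.C c))).eval z *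
            (Polynomial.derivative (a r)).eval z) -
      Tk f L ψ π s n ((fun r => (a r).eval z) + π • x)
        (sht L ψ w ((fun r => (a r).eval z) + π • x))
        (fun r => τ * (sht L ψ w ((fun r => (a r).eval z) + π • x)) ^ j /
          (Polynomial.derivative
          (∏ c ∈ S, (Polynomial.X - Polynomial.C c))).eval z *
            (Polynomial.derivative (a r)).eval z)) ∈ Vl f L π (s + 1) := by
    refine sum_mem fun z hz => sum_mem fun w hw => ?_
    obtain ⟨g, g2⟩ := hg' z hz w hw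
    obtain ⟨d1, d2⟩ := f3_D (L := L) (M := L.Ur ⊥ n) (fun z hz => (hS z hz).1) hS' hz
    have d3 : ∀ r, (Polynomial.derivative (a r)).eval z ∈ L.Ur ⊥ n ∧
        L.nm ((Polynomial.derivative (a r)).eval z) ≤ 1 := fun r =>
      f3_ev (f3_dv (ha r)) (hS z hz).1 (hS z hz).2.1
    have hw1 := rts_le hψ (fun r => (hcz z hz r).2) hw
    obtain ⟨w', hw'⟩ : ∃ w', w' = sht L ψ w ((fun r => (a r).eval z) + π • x) := ⟨_, rfl⟩
    rw [← hw'] at g g2 ⊢
    obtain ⟨D, hD⟩ : ∃ D, D = (Polynomial.derivative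
      (∏ c ∈ S, (Polynomial.X - Polynomial.C c))).eval z := ⟨_, rfl⟩
    rw [← hD] at d1 d2 ⊢
    have i1 : Iv L (L.Ur ⊥ n) (fun r => τ * w' ^ j / D *
        (Polynomial.derivative (a r)).eval z) := fun r => by
      refine ⟨mul_mem (div_mem (mul_mem hτ (pow_mem g.mem j)) d1) (d3 r).1, ?_⟩
      rw [L.mul, L.div, d2, div_one, L.mul, L.pow]
      exact mul_le_one₀ (mul_le_one₀ hτ' (pow_nonneg (L.nonneg _) _)
        (pow_le_one₀ (L.nonneg _) g.le)) (L.nonneg _) (d3 r).2
    have i2 : Iv L (L.Ur ⊥ n) (fun r => (w ^ j - w' ^ j) / π * (τ / D *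
        (Polynomial.derivative (a r)).eval z)) := fun r => by
      refine ⟨mul_mem (div_mem (sub_mem (pow_mem (hr z hz w hw) j) (pow_mem g.mem j))
        (hπ.mem _)) (mul_mem (div_mem hτ d1) (d3 r).1), ?_⟩
      have i3 : L.nm ((w ^ j - w' ^ j) / π) ≤ 1 := by
        rw [L.div, div_le_one hπ.pos]
        refine (f3_pow hw1 g.le j).trans ?_
        rw [L.sub_comm]
        exact g2
      rw [L.mul, L.mul (τ / D), L.div τ, d2, div_one]
      exact mul_le_one₀ i3 (mul_nonneg (L.nonneg _) (L.nonneg _))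
        (mul_le_one₀ hτ' (L.nonneg _) (d3 r).2)
    have e3 : (fun r => τ * w ^ j / D * (Polynomial.derivative (a r)).eval z) =
        (fun r => τ * w' ^ j / D * (Polynomial.derivative (a r)).eval z) +
          π • (fun r => (w ^ j - w' ^ j) / π * (τ / D *
            (Polynomial.derivative (a r)).eval z)) := by
      funext r
      rw [Pi.add_apply, Pi.smul_apply, smul_eq_mul, ← mul_assoc, mul_div_cancel₀ _ hπ.ne]
      ring
    rw [e3]
    exact tk_congr hπ hψ hn g i1 i2 hs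
  have h4 := sub_mem (add_mem h3 h2) h1
  simp only [← Finset.sum_sub_distrib, ← Finset.sum_add_distrib] at h4
  have e4 : ∀ z ∈ S, ∀ w ∈ rts ψ (fun r => (a r).eval z), Gk f L ψ π s x n
      (fun r => (a r).eval z) w
      (fun r => τ * w ^ j / (Polynomial.derivative
        (∏ c ∈ S, (Polynomial.X - Polynomial.C c))).eval z *
          (Polynomial.derivative (a r)).eval z) =
      Tk f L ψ π s n ((fun r => (a r).eval z) + π • x)
        (sht L ψ w ((fun r => (a r).eval z) + π • x))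
        (fun r => τ * w ^ j / (Polynomial.derivative
          (∏ c ∈ S, (Polynomial.X - Polynomial.C c))).eval z *
            (Polynomial.derivative (a r)).eval z) -
      Tk f L ψ π s n ((fun r => (a r).eval z) + π • x)
        (sht L ψ w ((fun r => (a r).eval z) + π • x))
        (fun r => τ * (sht L ψ w ((fun r => (a r).eval z) + π • x)) ^ j /
          (Polynomial.derivative
          (∏ c ∈ S, (Polynomial.X - Polynomial.C c))).eval z *
            (Polynomial.derivative (a r)).eval z) +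
      Tk f L ψ π s n ((fun r => (a r).eval z) + π • x)
        (sht L ψ w ((fun r => (a r).eval z) + π • x))
        (fun r => τ * (sht L ψ w ((fun r => (a r).eval z) + π • x)) ^ j /
          (Polynomial.derivative
          (∏ c ∈ S, (Polynomial.X - Polynomial.C c))).eval z *
            (Polynomial.derivative (a r)).eval z) -
      Tk f L ψ π s n (fun r => (a r).eval z) w
        (fun r => τ * w ^ j / (Polynomial.derivative
          (∏ c ∈ S, (Polynomial.X - Polynomial.C c))).eval z *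
            (Polynomial.derivative (a r)).eval z) := by
    intro z _ w _
    rw [sub_add_cancel]
    rfl
  rw [Finset.sum_congr rfl fun z hz => Finset.sum_congr rfl (e4 z hz)]
  exact h4

end GX
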