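import Pool.Agent.Lib.MP_f80667_ag.Lv.Ko.F2b
import Pool.Agent.Lib.MP_f80667_ag.Lv.Ko.F3

/-! `Gk` and `Tk` satisfy the rules. -/

open ZC BE PE CV IntermediateField

namespace GX

variable {F : Type} [Field F] {N d : ℕ} {ι : Type} {f : ι → MvPolynomial (Fin N) F} {K Ω : Type}
  [Field K] [CharZero K] [Field Ω] [Algebra K Ω] [Algebra F K] [Algebra F Ω]
  [IsScalarTower F K Ω] [IsAlgClosure K Ω] {L : Ld K Ω} {ψ : Prj K N d} {π : Ω} {k s : ℕ}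
  {W : AddSubgroup ((Xf f).pt Ω →₀ ℤ)}
  {n : ℕ} {c u u' x x' : Fin (d + 1) → Ω} {w : Ω}

/-- Proof: `gk_add`, `tk_pi`, `tk_norm` at both points (`Gp.mono`), `gk_near`, `gk_crv`. -/
theorem gk_vfn (hπ : Uf L π) (hψ : Pj f L ψ) (h2 : 2 < L.p)
    (hx : Iv L (⊥ : IntermediateField K Ω) x) (hs : s ≠ 0) :
    Vfn f L ψ π k (Vl f L π (s + 1)) (Gk f L ψ π s x) := by
  have hx' : ∀ n : ℕ, Iv L (L.Ur ⊥ n) x := fun n r =>
    ⟨(bot_le : (⊥ : IntermediateField K Ω) ≤ L.Ur ⊥ n) (hx r).1, (hx r).2⟩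
  have hpx : ∀ n : ℕ, Iv L (L.Ur ⊥ n) (π • x) := fun n r => by
    rw [Pi.smul_apply, smul_eq_mul]
    refine ⟨mul_mem (hπ.mem _) (hx' n r).1, ?_⟩
    rw [L.mul]
    exact mul_le_one₀ hπ.lt.le (L.nonneg _) (hx r).2
  have hsh : ∀ (n : ℕ) (c : Fin (d + 1) → Ω) (w : Ω), Gp L ψ (L.Ur ⊥ n) c w →
      Gp L ψ (L.Ur ⊥ n) (c + π • x) (sht L ψ w (c + π • x)) := fun n c w g =>
    (g.sh hψ (hpx n) hπ.lt fun r => by
      rw [Pi.smul_apply, smul_eq_mul, L.mul]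
      exact mul_le_of_le_one_right (L.nonneg _) (hx r).2).1
  refine ⟨fun n c w u u' hn _ g hu hu' => gk_add hπ hψ h2 hn g hu hu' (hx' n) hs,
    fun n c w u hn _ g hu => ?_, fun n n' c w u b hn _ hn' hd g hu hb hb1 => ?_,
    fun n c w u h hn _ g hu hh => gk_near hπ hψ h2 hn g hu (hx' n) hh hs,
    fun n a ρ S j τ hn _ ha hρ hS hS' hj hτ hτ' hr =>
      gk_crv hπ hψ hn (hx' n) ha hρ hS hS' hj hτ hτ' hr hs⟩
  · exact sub_mem (tk_pi hπ hψ hn (hsh n c w g) hu) (tk_pi hπ hψ hn g hu)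
  · have h3 := tk_norm (f := f) (s := s) hπ hψ hn hn' hd (hsh n c w g) hu hb hb1 hs
    have h4 := tk_norm (f := f) (s := s) hπ hψ hn hn' hd g hu hb hb1 hs
    have h5 := sub_mem h3 h4
    have e : Gk f L ψ π s x n' c w (b • u) -
        Gk f L ψ π s x n c w (Nm (L.Ur ⊥ n) (L.Ur ⊥ n') b • u) =
        (Tk f L ψ π s n' (c + π • x) (sht L ψ w (c + π • x)) (b • u) -
          Tk f L ψ π s n (c + π • x) (sht L ψ w (c + π • x))
            (Nm (L.Ur ⊥ n) (L.Ur ⊥ n') b • u)) -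
        (Tk f L ψ π s n' c w (b • u) -
          Tk f L ψ π s n c w (Nm (L.Ur ⊥ n) (L.Ur ⊥ n') b • u)) := by
      unfold Gk
      abel
    rw [e]
    exact h5

/-- Proof: `tk_add`, `tk_pi`, `tk_norm`, `tk_crv`; `near` is the hypothesis. -/
theorem tk_vfn (hπ : Uf L π) (hψ : Pj f L ψ) (h2 : 2 < L.p) (hW : Vl f L π (s + 1) ≤ W)
    (hs : s ≠ 0) (h : ∀ (n : ℕ) (c : Fin (d + 1) → Ω) (w : Ω) (x u : Fin (d + 1) → Ω), n ≠ 0 →
      k ∣ n → Gp L ψ (L.Ur ⊥ n) c w → Iv L (L.Ur ⊥ n) x → Iv L (L.Ur ⊥ n) u →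
        Gk f L ψ π s x n c w u ∈ W) : Vfn f L ψ π k W (Tk f L ψ π s) := by
  refine ⟨fun n c w u u' hn _ g hu hu' => hW (tk_add hπ hψ h2 hn g hu hu' hs),
    fun n c w u hn _ g hu => hW (tk_pi hπ hψ hn g hu),
    fun n n' c w u b hn _ hn' hd g hu hb hb1 => hW (tk_norm hπ hψ hn hn' hd g hu hb hb1 hs),
    fun n c w u y hn hk g hu hy => h n c w y u hn hk g hy hu,
    fun n a ρ S j τ hn _ ha hρ hS hS' hj hτ hτ' hr =>
      hW (tk_crv hπ hψ hn ha hρ hS hS' hj hτ hτ' hr hs)⟩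

end GX
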