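import Pool.Agent.Lib.MP_f80667_ag.Lv.Ko.C3
import Pool.Agent.Lib.MP_f80667_ag.Lv.Ko.D2

/-! Finitely many values at one point. -/

open ZC BE PE CV IntermediateField

namespace GX

variable {F : Type} [Field F] {N d : ℕ} {ι : Type} {f : ι → MvPolynomial (Fin N) F} {K Ω : Type}
  [Field K] [CharZero K] [Field Ω] [Algebra K Ω] [Algebra F K] [Algebra F Ω]
  [IsScalarTower F K Ω] [IsAlgClosure K Ω] {L : Ld K Ω} {ψ : Prj K N d} {π : Ω} {k s : ℕ}
  {n : ℕ} {c u : Fin (d + 1) → Ω} {w : Ω}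

omit [CharZero K] [IsAlgClosure K Ω] in
private theorem te_finite {n : ℕ} (hn : n ≠ 0) : (L.Te n).Finite := by
  classical
  have hp : 1 < L.p ^ n := Nat.one_lt_pow hn L.pp.one_lt
  have h0 : (Polynomial.X ^ L.p ^ n - Polynomial.X : Polynomial Ω) ≠ 0 :=
    FiniteField.X_pow_card_sub_X_ne_zero Ω hp
  refine ((Polynomial.X ^ L.p ^ n - Polynomial.X : Polynomial Ω).roots.toFinset.finite_toSet).subset
    fun x hx => ?_
  rw [Finset.mem_coe, Multiset.mem_toFinset, Polynomial.mem_roots h0, Polynomial.IsRoot.def,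
    Polynomial.eval_sub, Polynomial.eval_pow, Polynomial.eval_X, sub_eq_zero]
  exact hx

omit [CharZero K] [IsAlgClosure K Ω] in
private theorem iv_smul' {M : IntermediateField K Ω} {a : Ω} (ha : a ∈ M) (ha1 : L.nm a ≤ 1)
    (hu : Iv L M u) : Iv L M (a • u) := fun i => by
  refine ⟨mul_mem ha (hu i).1, ?_⟩
  change L.nm (a * u i) ≤ 1
  rw [L.mul]
  exact mul_le_one₀ ha1 (L.nonneg _) (hu i).2

/-- Finitely many values decide `Ko`. Proof: `T` = the values `Φ n c w (τ • u)` for `τ` in the finite set `Te n` (the roots of `X ^ p ^ n - X`); every integer `τ'` of `Ur ⊥ n` is congruent modulo `π` to one of them (`kf_ur` or `kf_te`, `Uf.rv_eq`: its residue is a root of `X ^ p ^ n - X` because `k ∣ n`), `Vfn.congr`, `ko_of`. -/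
theorem exists_fin (hπ : Uf L π) (hψ : Pj f L ψ) (hk : L.Rf ⊥ k)
    {V : AddSubgroup ((Xf f).pt Ω →₀ ℤ)}
    (Φ : ℕ → (Fin (d + 1) → Ω) → Ω → (Fin (d + 1) → Ω) → (Xf f).pt Ω →₀ ℤ) (hn : n ≠ 0)
    (hkn : k ∣ n) (g : Gp L ψ (L.Ur ⊥ n) c w) (hu : Iv L (L.Ur ⊥ n) u)
    (hV : ∀ v, Iv L (L.Ur ⊥ n) v → Φ n c w v ∈ V) :
    ∃ T : Finset ((Xf f).pt Ω →₀ ℤ), (∀ z ∈ T, z ∈ V) ∧
      ∀ W : AddSubgroup ((Xf f).pt Ω →₀ ℤ), Vfn f L ψ π k W Φ → (∀ z ∈ T, z ∈ W) →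
        Ko L ψ k W Φ c w u := by
  classical
  have _ := hψ
  have hfin := te_finite (L := L) hn
  refine ⟨hfin.toFinset.image fun τ => Φ n c w (τ • u), ?_, ?_⟩
  · intro z hz
    obtain ⟨τ, hτ, rfl⟩ := Finset.mem_image.1 hz
    rw [Set.Finite.mem_toFinset] at hτ
    exact hV _ (iv_smul' (Ld.te_ur hτ) (Ld.te_int hn hτ) hu)
  · intro W hΦ hT
    refine ko_of hk hΦ hn hkn g hu fun τ hτ hτ1 => ?_
    have hv := rv_hv L hτ1
    have ha : rv L τ ^ L.p ^ n = rv L τ := kf_res hk hn hkn hτ hv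
    obtain ⟨z, hz, hzv⟩ := kf_te (K := K) hn ha
    have hzM : z ∈ L.Ur ⊥ n := Ld.te_ur hz
    have hz1 : L.nm z ≤ 1 := Ld.te_int hn hz
    obtain ⟨y, hy, hy1, he⟩ := hπ.rv_eq hn hzM hτ hzv hv
    have h1 := hΦ.congr hn hkn g (iv_smul' hzM hz1 hu) (iv_smul' hy hy1 hu) hπ
    have h2 : Φ n c w (z • u) ∈ W := hT _ (Finset.mem_image.2
      ⟨z, hfin.mem_toFinset.2 hz, rfl⟩)
    have h3 : τ • u = z • u + π • (y • u) := by
      rw [he, add_smul, mul_smul]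
    rw [h3]
    have h4 := add_mem h1 h2
    rwa [sub_add_cancel] at h4

end GX
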