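import Pool.Agent.Lib.MP_f80667_ag.Lv.Ko.H1
import Pool.Agent.Lib.MP_f80667_ag.Lv.Ko.E5
import Pool.Agent.Lib.MP_f80667_ag.Lv.Ko.F4

/-! Finitely many generators of the graded piece. -/

open ZC BE PE CV IntermediateField

namespace GX

variable {F : Type} [Field F] {N d m : ℕ} {ι : Type} {f : ι → MvPolynomial (Fin N) F}
  {K Ω : Type} [Field K] [CharZero K] [Field Ω] [Algebra K Ω] [Algebra F K] [Algebra F Ω]
  [IsScalarTower F K Ω] [IsAlgClosure K Ω] {L : Ld K Ω} {π : Ω} {k s : ℕ}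

omit [CharZero K] [IsAlgClosure K Ω] in
private theorem h2_single (M : IntermediateField K Ω) (t : Fin (d + 1)) :
    Iv L M (Pi.single t 1 : Fin (d + 1) → Ω) := fun i => by
  by_cases h : i = t
  · subst h
    rw [Pi.single_eq_same, L.one]
    exact ⟨one_mem M, le_rfl⟩
  · rw [Pi.single_eq_of_ne h, L.zero]
    exact ⟨zero_mem M, zero_le_one⟩

private theorem h2_pt (hπ : Uf L π) {ψ : Prj K N d} (hψ : Pj f L ψ) (hk : L.Rf ⊥ k)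
    {V : AddSubgroup ((Xf f).pt Ω →₀ ℤ)}
    (Φ : ℕ → (Fin (d + 1) → Ω) → Ω → (Fin (d + 1) → Ω) → (Xf f).pt Ω →₀ ℤ)
    (hV : ∀ (n : ℕ) (c : Fin (d + 1) → Ω) (w : Ω) (v : Fin (d + 1) → Ω), n ≠ 0 →
      Gp L ψ (L.Ur ⊥ n) c w → Iv L (L.Ur ⊥ n) v → Φ n c w v ∈ V)
    (i₀ : Fin (d + 1)) (y : Fin (d + 1) → L.κ) (hy : MvPolynomial.eval y (rD L ψ) ≠ 0) :
    ∃ T : Finset ((Xf f).pt Ω →₀ ℤ), (∀ z ∈ T, z ∈ V) ∧
      ∀ W : AddSubgroup ((Xf f).pt Ω →₀ ℤ), Vfn f L ψ π k W Φ → (∀ z ∈ T, z ∈ W) →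
        Kq L ψ k W Φ i₀ y := by
  classical
  obtain ⟨c, hc⟩ : ∃ c : Fin (d + 1) → Rn L, (fun r => rdn L (c r)) = y :=
    ⟨lft L y, funext fun r => lft_eq rdn_surj y r⟩
  subst hc
  have hD : L.nm (MvPolynomial.aeval (fun r => (c r : Ω)) ψ.D) = 1 := (rD_one hψ c).1 hy
  obtain ⟨n, hn, hkn, hI, hg⟩ := exists_gp hψ hk.ne (fun r => (c r).2) hD
  have h1 : ∀ w : Ω, w ∈ rts ψ (fun r => (c r : Ω)) →
      ∃ T : Finset ((Xf f).pt Ω →₀ ℤ), (∀ z ∈ T, z ∈ V) ∧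
        ∀ W : AddSubgroup ((Xf f).pt Ω →₀ ℤ), Vfn f L ψ π k W Φ → (∀ z ∈ T, z ∈ W) →
          Ko L ψ k W Φ (fun r => (c r : Ω)) w (Pi.single i₀ 1) := fun w hw =>
    exists_fin hπ hψ hk Φ hn hkn (hg w hw) (h2_single _ i₀)
      (fun v hv => hV n _ w v hn (hg w hw) hv)
  choose! T hT1 hT2 using h1
  refine ⟨(rts ψ fun r => (c r : Ω)).biUnion T, ?_, fun W hW hTW =>
    kq_of hπ hψ hk hW hD fun w hw => ?_⟩
  · intro z hz
    obtain ⟨w, hw, hz'⟩ := Finset.mem_biUnion.1 hz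
    exact hT1 w hw z hz'
  · have hw' := (mem_rts hψ).2 hw
    exact hT2 w hw' W hW fun z hz => hTW z (Finset.mem_biUnion.2 ⟨w, hw', hz⟩)

private theorem h2_all (hπ : Uf L π) {ψ : Prj K N d} (hψ : Pj f L ψ) (hk : L.Rf ⊥ k)
    {V : AddSubgroup ((Xf f).pt Ω →₀ ℤ)}
    (Φ : ℕ → (Fin (d + 1) → Ω) → Ω → (Fin (d + 1) → Ω) → (Xf f).pt Ω →₀ ℤ)
    (hV : ∀ (n : ℕ) (c : Fin (d + 1) → Ω) (w : Ω) (v : Fin (d + 1) → Ω), n ≠ 0 →
      Gp L ψ (L.Ur ⊥ n) c w → Iv L (L.Ur ⊥ n) v → Φ n c w v ∈ V) :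
    ∃ T : Finset ((Xf f).pt Ω →₀ ℤ), (∀ z ∈ T, z ∈ V) ∧
      ∀ W : AddSubgroup ((Xf f).pt Ω →₀ ℤ), Vfn f L ψ π k W Φ → (∀ z ∈ T, z ∈ W) →
        ∀ (n : ℕ) (c : Fin (d + 1) → Ω) (w : Ω), n ≠ 0 → Gp L ψ (L.Ur ⊥ n) c w →
          ∀ r, Ko L ψ k W Φ c w (Pi.single r 1) := by
  classical
  have hΩ : IsAlgClosed Ω := IsAlgClosure.isAlgClosed K
  have hκ : IsAlgClosed L.κ := L.κ_closed
  have hinf : Infinite L.κ := inferInstance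
  obtain ⟨S, hS⟩ := Infinite.exists_subset_card_eq L.κ
    ((ψ.G.natDegree - 1) * L.p + (rD L ψ).totalDegree * L.p)
  obtain ⟨Y, hY⟩ : ∃ Y : Finset (Fin (d + 1) × (Fin (d + 1) → L.κ)), Y =
      (Finset.univ ×ˢ Fintype.piFinset fun _ : Fin (d + 1) => S).filter
        (fun p => MvPolynomial.eval p.2 (rD L ψ) ≠ 0) := ⟨_, rfl⟩
  have h1 : ∀ p : Fin (d + 1) × (Fin (d + 1) → L.κ), p ∈ Y →
      ∃ T : Finset ((Xf f).pt Ω →₀ ℤ), (∀ z ∈ T, z ∈ V) ∧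
        ∀ W : AddSubgroup ((Xf f).pt Ω →₀ ℤ), Vfn f L ψ π k W Φ → (∀ z ∈ T, z ∈ W) →
          Kq L ψ k W Φ p.1 p.2 := by
    intro p hp
    rw [hY, Finset.mem_filter] at hp
    exact h2_pt hπ hψ hk Φ hV p.1 p.2 hp.2
  choose! T hT1 hT2 using h1
  refine ⟨Y.biUnion T, ?_, fun W hW hTW n c w hn g r => ?_⟩
  · intro z hz
    obtain ⟨p, hp, hz'⟩ := Finset.mem_biUnion.1 hz
    exact hT1 p hp z hz'
  · have h2 := kq_all hπ hψ hk hW (i₀ := r) S hS.ge (fun y hyS hy => by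
      have hp : (r, y) ∈ Y := by
        rw [hY, Finset.mem_filter, Finset.mem_product, Fintype.mem_piFinset]
        exact ⟨⟨Finset.mem_univ _, hyS⟩, hy⟩
      exact hT2 (r, y) hp W hW fun z hz => hTW z (Finset.mem_biUnion.2 ⟨_, hp, hz⟩))
    have h3 := (rD_one hψ fun i => (⟨c i, mem_rn L hn (g.iv i).1 (g.iv i).2⟩ : Rn L)).2 g.D
    exact h2 _ h3 (fun i => ⟨c i, mem_rn L hn (g.iv i).1 (g.iv i).2⟩) (fun _ => rfl) w g.G

/-- One chart. Proof: `S` a finset of `L.κ` (infinite) with the number of elements in `kq_all`; for the finitely many good `y` with `y i ∈ S`: `c = lft L y` (`lft_eq`), `exists_gp`, for the finitely many roots `w ∈ rts`, all `t, r`: `exists_fin` for `Gk .. (Pi.single t 1)` and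
for `Tk`, `u = Pi.single r 1`, `V = Vl s` (`tk_vl`); `T` = the union. Given `W`: `gk_vfn` (`Vfn.mono`), `kq_of`, `kq_all` give `Ko` for all good `c` over `Rn L` (`rD_one`) and `Gk`; `gk_all`; `tk_vfn`; the same for `Tk`; `Ko.all`. -/
theorem exists_gen₁ (hπ : Uf L π) {ψ : Prj K N d} (hψ : Pj f L ψ) (h2 : 2 < L.p)
    (hk : L.Rf ⊥ k) (hs : s ≠ 0) : ∃ T : Finset ((Xf f).pt Ω →₀ ℤ), (∀ z ∈ T, z ∈ Vl f L π s) ∧
      ∀ W : AddSubgroup ((Xf f).pt Ω →₀ ℤ), Vl f L π (s + 1) ≤ W → (∀ z ∈ T, z ∈ W) →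
        ∀ (n : ℕ) (c : Fin (d + 1) → Ω) (w : Ω) (u : Fin (d + 1) → Ω), n ≠ 0 → k ∣ n →
          Gp L ψ (L.Ur ⊥ n) c w → Iv L (L.Ur ⊥ n) u → Tk f L ψ π s n c w u ∈ W := by
  classical
  have hVT : ∀ (n : ℕ) (c : Fin (d + 1) → Ω) (w : Ω) (v : Fin (d + 1) → Ω), n ≠ 0 →
      Gp L ψ (L.Ur ⊥ n) c w → Iv L (L.Ur ⊥ n) v → Tk f L ψ π s n c w v ∈ Vl f L π s :=
    fun n c w v hn g hv => tk_vl hπ hψ hn g hv hs
  have hVG : ∀ (t : Fin (d + 1)) (n : ℕ) (c : Fin (d + 1) → Ω) (w : Ω) (v : Fin (d + 1) → Ω),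
      n ≠ 0 → Gp L ψ (L.Ur ⊥ n) c w → Iv L (L.Ur ⊥ n) v →
        Gk f L ψ π s (Pi.single t 1) n c w v ∈ Vl f L π s := by
    intro t n c w v hn g hv
    have hs1 := h2_single (L := L) (L.Ur ⊥ n) t
    have hI : Iv L (L.Ur ⊥ n) (π • (Pi.single t 1 : Fin (d + 1) → Ω)) := fun i => by
      rw [Pi.smul_apply, smul_eq_mul, L.mul]
      exact ⟨mul_mem (hπ.mem _) (hs1 i).1, mul_le_one₀ hπ.lt.le (L.nonneg _) (hs1 i).2⟩
    have hle : ∀ i, L.nm ((π • (Pi.single t 1 : Fin (d + 1) → Ω)) i) ≤ L.nm π := fun i => by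
      rw [Pi.smul_apply, smul_eq_mul, L.mul]
      exact mul_le_of_le_one_right (L.nonneg _) (hs1 i).2
    exact sub_mem (tk_vl hπ hψ hn (g.sh hψ hI hπ.lt hle).1 hv hs) (tk_vl hπ hψ hn g hv hs)
  obtain ⟨T0, hT0, hT0'⟩ := h2_all hπ hψ hk (Tk f L ψ π s) hVT
  have h1 := fun t => h2_all hπ hψ hk (Gk f L ψ π s (Pi.single t 1)) (hVG t)
  choose TG hTG hTG' using h1
  refine ⟨T0 ∪ Finset.univ.biUnion TG, ?_, ?_⟩
  · intro z hz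
    rcases Finset.mem_union.1 hz with hz | hz
    · exact hT0 z hz
    · obtain ⟨t, -, hz'⟩ := Finset.mem_biUnion.1 hz
      exact hTG t z hz'
  · intro W hW hTW n c w u hn hkn g hu
    have hG : ∀ (n : ℕ) (c : Fin (d + 1) → Ω) (w : Ω) (x u : Fin (d + 1) → Ω), n ≠ 0 →
        k ∣ n → Gp L ψ (L.Ur ⊥ n) c w → Iv L (L.Ur ⊥ n) x → Iv L (L.Ur ⊥ n) u →
          Gk f L ψ π s x n c w u ∈ W := by
      intro n c w x u hn hkn g hx hu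
      exact gk_all hπ hψ h2 hW hn hkn g hu hx hs fun t r =>
        hTG' t W ((gk_vfn hπ hψ h2 (h2_single _ t) hs).mono hW)
          (fun z hz => hTW z (Finset.mem_union_right _
            (Finset.mem_biUnion.2 ⟨t, Finset.mem_univ _, hz⟩))) n c w hn g r
    have hTv := tk_vfn hπ hψ h2 hW hs hG
    exact Ko.all hTv hn hkn g hu fun r =>
      hT0' W hTv (fun z hz => hTW z (Finset.mem_union_left _ hz)) n c w hn g r

end GX
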