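import Pool.Agent.Lib.MP_f80667_ag.Lv.Ko.H2
import Pool.Agent.Lib.MP_f80667_ag.Lv.Te

/-! Finitely many generators of the graded piece. -/

open ZC BE PE CV IntermediateField

namespace GX

variable {F : Type} [Field F] {N d m : ℕ} {ι : Type} {f : ι → MvPolynomial (Fin N) F}
  {K Ω : Type} [Field K] [CharZero K] [Field Ω] [Algebra K Ω] [Algebra F K] [Algebra F Ω]
  [IsScalarTower F K Ω] [IsAlgClosure K Ω] {L : Ld K Ω} {π : Ω} {k s : ℕ}

/-- All charts. Proof: the union over the charts; `W = Vl (s + 1) ⊔ closure T`; `dr_cyv`: `h = π ^ s • u`. -/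
theorem exists_gen {ψ : Fin m → Prj K N d} (hf : Hm f) (hπ : Uf L π) (hψ : ∀ i, Pj f L (ψ i))
    (hc : Cvr f L ψ) (h2 : 2 < L.p) (hk : L.Rf ⊥ k) (hs : s ≠ 0) :
    ∃ T : Finset ((Xf f).pt Ω →₀ ℤ), (∀ z ∈ T, z ∈ Vl f L π s) ∧
      Vl f L π s ≤ Vl f L π (s + 1) ⊔ AddSubgroup.closure (T : Set ((Xf f).pt Ω →₀ ℤ)) := by
  classical
  have h1 := fun i => exists_gen₁ (s := s) hπ (hψ i) h2 hk hs
  choose T hT hT' using h1
  refine ⟨Finset.univ.biUnion T, fun z hz => ?_, ?_⟩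
  · obtain ⟨i, -, hi⟩ := Finset.mem_biUnion.1 hz
    exact hT i z hi
  · obtain ⟨W, hW⟩ : ∃ W : AddSubgroup ((Xf f).pt Ω →₀ ℤ), W = Vl f L π (s + 1) ⊔
        AddSubgroup.closure ((Finset.univ.biUnion T : Finset ((Xf f).pt Ω →₀ ℤ)) :
          Set ((Xf f).pt Ω →₀ ℤ)) := ⟨_, rfl⟩
    rw [← hW]
    have hWV : Vl f L π (s + 1) ≤ W := by
      rw [hW]
      exact le_sup_left
    have hWT : ∀ i, ∀ z ∈ T i, z ∈ W := fun i z hz => by
      rw [hW]
      exact AddSubgroup.mem_sup_right (AddSubgroup.subset_closure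
        (Finset.mem_coe.2 (Finset.mem_biUnion.2 ⟨i, Finset.mem_univ _, hz⟩)))
    refine sup_le ((dr_cyv hf hψ hc hπ hs hk).trans ?_) ((vl_rat (s + 1)).trans hWV)
    rw [AddSubgroup.closure_le]
    rintro z ⟨i, n, c, w, v, hn, hkn, hG, hv, hv1, rfl⟩
    have hπ0 : π ≠ 0 := L.ne_zero hπ.pos
    have hπs : π ^ s ≠ 0 := pow_ne_zero s hπ0
    have hps : 0 < L.nm π ^ s := pow_pos hπ.pos s
    obtain ⟨g, hg⟩ : ∃ g : Fin (d + 1) → Ω, ∀ r, π ^ s * g r = v r :=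
      ⟨fun r => v r / π ^ s, fun r => mul_div_cancel₀ _ hπs⟩
    have hgv : v = π ^ s • g := funext fun r => by rw [Pi.smul_apply, smul_eq_mul, hg]
    have hg1 : Iv L (L.Ur ⊥ n) g := by
      intro r
      refine ⟨?_, ?_⟩
      · have h6 : g r = v r / π ^ s := by rw [← hg r, mul_div_cancel_left₀ _ hπs]
        rw [h6]
        exact div_mem (hv r).1 (pow_mem (hπ.mem _) s)
      · have h6 := hv1 r
        rw [← hg r, L.mul, L.pow] at h6
        exact le_of_mul_le_mul_left (by rwa [mul_one]) hps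
    rw [hgv]
    exact hT' i W hWV (hWT i) n c w g hn hkn hG hg1

end GX
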