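import Mathlib

/-! A finitely generated group killed by `p` is finite. -/

namespace GX

/-- Proof: the image of `V` in `A ⧸ V'` is generated by the images of `T` and killed by `p`: finite (`Module.Finite` over `ZMod p` or `AddCommGroup.equiv_..`; or: every element is congruent to `∑ z ∈ T, n_z • z` with `0 ≤ n_z < p`: `AddSubgroup.closure_induction`). `AddSubgroup.relIndex`. -/
theorem rel_fin {A : Type} [AddCommGroup A] {V V' : AddSubgroup A} {p : ℕ} (hp : p ≠ 0)
    (T : Finset A) (hT : ∀ z ∈ T, z ∈ V) (h : V ≤ V' ⊔ AddSubgroup.closure (T : Set A))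
    (hm : ∀ z ∈ V, p • z ∈ V') : V'.relIndex V ≠ 0 := by
  classical
  have key : ∀ z : V, ∃ n : A → Fin p, (z : A) - ∑ a ∈ T, (n a : ℕ) • a ∈ V' := by
    intro z
    obtain ⟨b, hb, c, hc, hbc⟩ := AddSubgroup.mem_sup.1 (h z.2)
    have hc1 : c ∈ Submodule.span ℤ (T : Set A) := by
      have h1 : c ∈ (Submodule.span ℤ (T : Set A)).toAddSubgroup := by
        rw [Submodule.span_int_eq_addSubgroupClosure]
        exact hc
      exact h1
    obtain ⟨f, _, hf⟩ := Submodule.mem_span_finset.1 hc1
    have hp1 : (0 : ℤ) < p := by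
      exact_mod_cast Nat.pos_of_ne_zero hp
    refine ⟨fun a => ⟨(f a % p).toNat, ?_⟩, ?_⟩
    · have h2 := Int.emod_lt_of_pos (f a) hp1
      have h3 := Int.emod_nonneg (f a) hp1.ne'
      omega
    · have h4 : ∀ a ∈ T, f a • a - (f a % p).toNat • a ∈ V' := by
        intro a ha
        have h3 := Int.emod_nonneg (f a) hp1.ne'
        have h5 : f a • a - (f a % p).toNat • a = (f a / p) • (p • a) := by
          rw [← natCast_zsmul a (f a % p).toNat, Int.toNat_of_nonneg h3, ← sub_smul,
            ← natCast_zsmul a p, smul_smul]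
          congr 1
          have h6 := Int.emod_add_mul_ediv (f a) p
          linarith [mul_comm (p : ℤ) (f a / p)]
        rw [h5]
        exact AddSubgroup.zsmul_mem _ (hm a (hT a ha)) _
      have h7 : (z : A) - ∑ a ∈ T, (f a % p).toNat • a =
          b + ∑ a ∈ T, (f a • a - (f a % p).toNat • a) := by
        rw [Finset.sum_sub_distrib, hf, ← hbc]
        abel
      show (z : A) - ∑ a ∈ T, (f a % p).toNat • a ∈ V'
      rw [h7]
      exact add_mem hb (sum_mem h4)
  choose n hn using key
  have hfin : Finite (V ⧸ V'.addSubgroupOf V) := by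
    have hinj : Function.Injective
        (fun q : V ⧸ V'.addSubgroupOf V => fun a : T => n (Quotient.out q) a) := by
      intro q q' hqq
      have h1 : ∀ a ∈ T, n (Quotient.out q) a = n (Quotient.out q') a := fun a ha =>
        congrFun hqq ⟨a, ha⟩
      have h2 : ∑ a ∈ T, (n (Quotient.out q) a : ℕ) • a =
          ∑ a ∈ T, (n (Quotient.out q') a : ℕ) • a :=
        Finset.sum_congr rfl fun a ha => by rw [h1 a ha]
      have h3 : -(Quotient.out q) + Quotient.out q' ∈ V'.addSubgroupOf V := by
        rw [AddSubgroup.mem_addSubgroupOf]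
        have h4 := sub_mem (hn (Quotient.out q')) (hn (Quotient.out q))
        rw [h2] at h4
        have h5 : ((Quotient.out q' : V) : A) - ∑ a ∈ T, (n (Quotient.out q') a : ℕ) • a -
            (((Quotient.out q : V) : A) - ∑ a ∈ T, (n (Quotient.out q') a : ℕ) • a) =
            ((-(Quotient.out q) + Quotient.out q' : V) : A) := by
          push_cast
          abel
        rwa [h5] at h4
      have h6 : (QuotientAddGroup.mk (Quotient.out q) : V ⧸ V'.addSubgroupOf V) =
          QuotientAddGroup.mk (Quotient.out q') := QuotientAddGroup.eq.2 h3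
      rwa [QuotientAddGroup.out_eq', QuotientAddGroup.out_eq'] at h6
    exact Finite.of_injective _ hinj
  exact AddSubgroup.index_ne_zero_of_finite

end GX
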