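import Pool.Agent.Lib.MP_f80667_ag.Lv.Ko.H2b
import Pool.Agent.Lib.MP_f80667_ag.Lv.Ko.H3

/-! **The graded pieces are finite.** -/

open ZC BE PE CV IntermediateField

namespace GX

variable {F : Type} [Field F] {N d m : ℕ} {ι : Type} {f : ι → MvPolynomial (Fin N) F}
  {K Ω : Type} [Field K] [CharZero K] [Field Ω] [Algebra K Ω] [Algebra F K] [Algebra F Ω]
  [IsScalarTower F K Ω] [IsAlgClosure K Ω] {L : Ld K Ω} {ψ : Fin m → Prj K N d} {π : Ω}

/-- The degree of the residue field of `K`. -/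
private theorem h4_rf (L : Ld K Ω) : ∃ k, L.Rf ⊥ k := by
  have hac : IsAlgClosed Ω := IsAlgClosure.isAlgClosed K
  obtain ⟨φ, q, hφ⟩ := exists_frob L.toLf (⊥ : IntermediateField K Ω)
  obtain ⟨f, hf, hq, -⟩ := Ld.frob_q hφ
  rw [hq] at hφ
  obtain ⟨h1, h2⟩ := Ld.frob_te hφ
  exact ⟨f, hf, sup_le le_rfl (adjoin_le_iff.2 fun z hz => h2 z hz), h1⟩

/-- **The graded pieces are finite.** Proof: `exists_gen`, `rel_fin`, `vl_mul_one`; `k` from `exists_frob L.toLf ⊥`, `Ld.frob_q`, `Ld.frob_te` as in `exists_rfb` of `Gy/Rd1.lean` (`[L.Unr]` is not used there). -/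
theorem vl_fin (hf : Hm f) (hπ : Uf L π) (h2 : 2 < L.p) (hψ : ∀ i, Pj f L (ψ i))
    (hc : Cvr f L ψ) {n : ℕ} (hn : n ≠ 0) :
    (Vl f L π (n + 1)).relIndex (Vl f L π n) ≠ 0 := by
  obtain ⟨k, hk⟩ := h4_rf L
  obtain ⟨T, hT, h⟩ := exists_gen hf hπ hψ hc h2 hk hn
  exact rel_fin L.pp.ne_zero T hT h fun z hz => vl_mul_one hπ hf hψ hc hn hz

end GX
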